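import Mathlib
import Pool.Agent.TH241.CR_AFPEEL
import Pool.Agent.TH255.CR_AF0
import Pool.Agent.TH255.CR_CANT
import Pool.Agent.TH255.CR_CB
import Pool.Agent.TH553.CR_AF1
import Pool.Agent.TH553.CR_LAMINV
import Pool.Agent.TH554.CR_DYE
import Pool.Agent.TH558.CR_EXT
import Pool.Agent.TH612.CR_PROD
import Pool.Agent.TH635.CR_ABS
import Pool.Agent.TH858.CR_GREEDY
import Pool.Agent.TH858.CR_HALVE
import Pool.Agent.TH858.CR_STAB
import Pool.Agent.TH858.CR_TAIL
import Pool.Agent.TH926.CR_CELLS
import Pool.Agent.TH286.CR.GE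
import Pool.Agent.TH286.CR.Hopf1
import Pool.Agent.TH617.CR.CR_HOPF2

set_option autoImplicit false

namespace Pool.Agent.TH722.CR

alias af_peel := Pool.Agent.TH241.CRAFPEEL.af_peel
alias af_gen := Pool.Agent.TH255.CR.af_gen
alias cantor_clopen := Pool.Agent.TH255.CR.Cant.cantor_clopen
alias cantor_gen := Pool.Agent.TH255.CR.Cant.cantor_gen
alias cantor_bernstein := Pool.Agent.TH255.CR.cantor_bernstein
alias af_cmp := Pool.Agent.TH553.CR.af_cmp
alias lam_inv := Pool.Agent.TH553.CR.lam_inv
alias dye := Pool.Agent.TH554.CRDye.dye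
alias extension := Pool.Agent.TH558.CR.extension
alias dye_prod := Pool.Agent.TH612.CR.dye_prod
alias absorb := Pool.Agent.TH635.CRAbs.absorb
alias greedy := Pool.Agent.TH858.CR.greedy
alias halve := Pool.Agent.TH858.CR.halve
alias af_stable := Pool.Agent.TH858.CR.af_stable
alias tail_reduction := Pool.Agent.TH858.CR.tail_reduction
alias cells := Pool.Agent.TH926.CR.cells
alias glimm_effros := Pool.Agent.TH286.CR.glimm_effros
alias hopf_dyadic := Pool.Agent.TH286.CR.hopf_dyadic
alias hopf_measure := Pool.Agent.TH617.CR.hopf_measure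

end Pool.Agent.TH722.CR
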