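import Mathlib
import Pool.Agent.TH722.CR.Jobs

set_option autoImplicit false

namespace Pool.Agent.TH722.CR

open Set MeasureTheory TopologicalSpace

/-- the AF relation -/
def AF {Z : Type} (N : ℕ → ℕ) (p q : Z × ∀ k, Fin (N k)) : Prop :=
  p.1 = q.1 ∧ ∃ k, ∀ i, k ≤ i → p.2 i = q.2 i

theorem af_equiv {Z : Type} (N : ℕ → ℕ) : Equivalence (AF (Z := Z) N) := by
  refine ⟨fun p => ⟨rfl, 0, fun i _ => rfl⟩, ?_, ?_⟩
  · rintro p q ⟨h1, k, h2⟩
    exact ⟨h1.symm, k, fun i hi => (h2 i hi).symm⟩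
  · rintro p q r ⟨h1, k, h2⟩ ⟨h1', k', h2'⟩
    exact ⟨h1.trans h1', max k k', fun i hi => (h2 i (by omega)).trans (h2' i (by omega))⟩

theorem af_ext {Z : Type} [TopologicalSpace Z] [CompactSpace Z] [MetrizableSpace Z]
    [TotallyDisconnectedSpace Z] (N : ℕ → ℕ) (lam : Measure (∀ k, Fin (N k)))
    [IsProbabilityMeasure lam]
    (hlam : ∀ (k : ℕ) (u : ∀ k, Fin (N k)),
      lam {x | ∀ i, i < k → x i = u i} = (∏ i ∈ Finset.range k, (N i : ENNReal))⁻¹)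
    (A B : Set (Z × ∀ k, Fin (N k))) (hA : IsClosed A) (hB : IsClosed B)
    (θ : (Z × ∀ k, Fin (N k)) → (Z × ∀ k, Fin (N k))) (hθc : ContinuousOn θ A) (hθi : InjOn θ A)
    (hθB : θ '' A = B) (hθ1 : ∀ p ∈ A, (θ p).1 = p.1)
    (hA0 : ∀ z, interior {x | (z, x) ∈ A} = ∅) (hB0 : ∀ z, interior {x | (z, x) ∈ B} = ∅)
    (hθm : ∀ (z : Z) (k : ℕ) (u : ∀ k, Fin (N k)),
      lam {x | (z, x) ∈ A ∧ ∀ i, i < k → x i = u i} =
        lam {y | ∃ x, (z, x) ∈ A ∧ (∀ i, i < k → x i = u i) ∧ θ (z, x) = (z, y)}) :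
    ∃ T : (Z × ∀ k, Fin (N k)) ≃ₜ (Z × ∀ k, Fin (N k)), (∀ a ∈ A, T a = θ a) ∧
      ∀ x, x ∉ A → AF N x (T x) := by
  let := metrizableSpaceMetric (Z × ∀ k, Fin (N k))
  have hlaminv := fun S hS f hf hfi hfE => lam_inv N lam hlam S hS f hf hfi hfE
  have hcmp := fun P Q hP hQ h => af_cmp (Z := Z) N lam hlam P Q hP hQ h
  apply extension (AF N) (af_equiv N) A B hA hB θ hθc hθi hθB
  intro P Q C U V hP hQ hC hU hV hCP hPQ hθPQ hCU hCV
  exact af_peel N lam hlam hlaminv hcmp A B hA hB θ hθc hθi hθB hθ1 hA0 hB0 hθm P Q C U V hP hQ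
    hC hU hV hCP hPQ hθPQ hCU hCV

theorem dye_full {X : Type} [MeasurableSpace X] [StandardBorelSpace X] (s : ℕ → X → X)
    (hs : ∀ n, Measurable (s n)) (hinv : ∀ n x, s n (s n x) = x) (E : X → X → Prop)
    (hE : Equivalence E) (hsE : ∀ x y, E x y ↔ ∃ n, s n x = y)
    (hinf : ∀ x, {y | E x y}.Infinite)
    (ν : Measure X) [IsProbabilityMeasure ν] (hν : ∀ n, ν.map (s n) = ν) :
    ∃ (N : ℕ → ℕ) (X1 : Set X) (z : X → (ℕ → Bool)) (ω : X → (k : ℕ) → Fin (N k)),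
      (∀ k, 2 ≤ N k) ∧ MeasurableSet X1 ∧ ν X1ᶜ = 0 ∧ (∀ x y, E x y → x ∈ X1 → y ∈ X1) ∧
      Measurable z ∧ Measurable ω ∧ (∀ x y, E x y → z x = z y) ∧
      (∀ x ∈ X1, ∀ y ∈ X1, z x = z y → ω x = ω y → x = y) ∧
      (∀ x ∈ X1, ∀ (k : ℕ) (i : Fin (N k)),
        ∃ y ∈ X1, E x y ∧ ω y = Function.update (ω x) k i) ∧
      (∀ (k : ℕ) (u : ∀ k, Fin (N k)),
        (ν.map ω) {x | ∀ i, i < k → x i = u i} = (∏ i ∈ Finset.range k, (N i : ENNReal))⁻¹) ∧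
      ν.map (fun x => (z x, ω x)) = (ν.map z).prod (ν.map ω) := by
  have hqi : ∀ n V, MeasurableSet V → ν V = 0 → ν (s n ⁻¹' V) = 0 := by
    intro n V hV h
    rw [← Measure.map_apply (hs n) hV, hν n, h]
  have hfin : ∀ f : X → X, Measurable f → Function.Injective f → (∀ x, E x (f x)) →
      ν (range f)ᶜ = 0 := by
    intro f hf hfi hfE
    have h1 := Pool.Agent.TH554.CRDye.measure_image hs hinv hsE hν MeasurableSet.univ hf hfE
      hfi.injOn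
    have hr : MeasurableSet (f '' univ) :=
      MeasurableSet.univ.image_of_measurable_injOn hf hfi.injOn
    rw [← image_univ, prob_compl_eq_zero_iff hr, h1, measure_univ]
  have hgreedy := fun U V hU hV => greedy s hs hinv E hE hsE U V hU hV
  have hhalve := fun C hC => halve s hs hinv E hE hsE hinf ν hqi hfin C hC
  have hcells := fun C hC r v hv m => cells s hs hinv E hE hsE ν hν hgreedy hhalve C hC r v hv m
  obtain ⟨N, X1, z, ω, h1, h2, h3, h4, h5, h6, h7, h8, h9⟩ :=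
    dye s hs hinv E hE hsE ν hν hcells
  obtain ⟨h10, h11⟩ := dye_prod s hs hinv E hE hsE ν hν N X1 z ω h1 h2 h3 h4 h5 h6 h7 h8 h9
  exact ⟨N, X1, z, ω, h1, h2, h3, h4, h5, h6, h7, h8, h9, h10, h11⟩

end Pool.Agent.TH722.CR
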