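import Mathlib
import Pool.Agent.TH722.CR.Jobs

set_option autoImplicit false

namespace Pool.Agent.TH722.CR

open Set MeasureTheory TopologicalSpace

theorem clopen_between {K : Type} [TopologicalSpace K] [CompactSpace K] [T2Space K]
    [TotallyDisconnectedSpace K] {A U : Set K} (hA : IsCompact A) (hU : IsOpen U) (h : A ⊆ U) :
    ∃ V : Set K, IsClopen V ∧ A ⊆ V ∧ V ⊆ U := by
  have := hA.induction_on (p := fun s => ∃ V : Set K, IsClopen V ∧ s ∩ A ⊆ V ∧ V ⊆ U)
    ⟨∅, isClopen_empty, by simp, by simp⟩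
    (by
      rintro s t hst ⟨V, h1, h2, h3⟩
      exact ⟨V, h1, (inter_subset_inter_left A hst).trans h2, h3⟩)
    (by
      rintro s t ⟨V, h1, h2, h3⟩ ⟨V', h1', h2', h3'⟩
      refine ⟨V ∪ V', h1.union h1', ?_, union_subset h3 h3'⟩
      rw [union_inter_distrib_right]
      exact union_subset_union h2 h2')
    (by
      intro x hx
      obtain ⟨V, h1, h2, h3⟩ := compact_exists_isClopen_in_isOpen hU (h hx)
      exact ⟨V, mem_nhdsWithin_of_mem_nhds (h1.isOpen.mem_nhds h2), V, h1, inter_subset_left, h3⟩)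
  simpa using this

/-- tail equivalence -/
def Tail (x y : ℕ → Bool) : Prop := ∃ m n, ∀ i, x (m + i) = y (n + i)

theorem tail_equiv : Equivalence Tail := by
  refine ⟨fun x => ⟨0, 0, fun i => rfl⟩, ?_, ?_⟩
  · rintro x y ⟨m, n, h⟩
    exact ⟨n, m, fun i => (h i).symm⟩
  · rintro x y z ⟨m, n, h⟩ ⟨m', n', h'⟩
    refine ⟨m + m', n' + n, fun i => ?_⟩
    have h1 := h (m' + i)
    have h2 := h' (n + i)
    rw [show m + m' + i = m + (m' + i) by ring, h1, show n + (m' + i) = m' + (n + i) by ring, h2]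
    congr 1; ring

theorem cantor_ext (A B : Set (ℕ → Bool)) (hA : IsClosed A) (hB : IsClosed B)
    (hA0 : interior A = ∅) (hB0 : interior B = ∅) (θ : (ℕ → Bool) → (ℕ → Bool))
    (hθc : ContinuousOn θ A) (hθi : InjOn θ A) (hθB : θ '' A = B) :
    ∃ T : (ℕ → Bool) ≃ₜ (ℕ → Bool), (∀ a ∈ A, T a = θ a) ∧ ∀ x, x ∉ A → Tail x (T x) := by
  let _ := metrizableSpaceMetric (ℕ → Bool)
  apply extension Tail tail_equiv A B hA hB θ hθc hθi hθB
  intro P Q C U V hP hQ hC hU hV hCP hPQ hθPQ hCU hCV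
  by_cases hne : (A ∩ C).Nonempty
  · have hAc : ∀ O : Set (ℕ → Bool), IsOpen O → O.Nonempty → ∃ x ∈ O, x ∉ A := by
      intro O hO hne
      by_contra hcon
      push Not at hcon
      obtain ⟨x, hx⟩ := hne
      have : x ∈ interior A := mem_interior.2 ⟨O, hcon, hO, hx⟩
      rw [hA0] at this
      exact this
    have hBc : ∀ O : Set (ℕ → Bool), IsOpen O → O.Nonempty → ∃ x ∈ O, x ∉ B := by
      intro O hO hne
      by_contra hcon
      push Not at hcon
      obtain ⟨x, hx⟩ := hne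
      have : x ∈ interior B := mem_interior.2 ⟨O, hcon, hO, hx⟩
      rw [hB0] at this
      exact this
    have hAC : IsCompact (A ∩ C) := (hA.inter hC.isClosed).isCompact
    have hB1 : IsCompact (θ '' (A ∩ C)) := hAC.image_of_continuousOn
      (hθc.mono inter_subset_left)
    have hB2 : IsCompact (θ '' (A \ C)) := (hA.inter hC.compl.isClosed).isCompact.image_of_continuousOn
      (hθc.mono inter_subset_left)
    have hBdisj : ∀ y ∈ θ '' (A ∩ C), y ∉ θ '' (A \ C) := by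
      rintro _ ⟨a, ha, rfl⟩ ⟨b, hb, hab⟩
      have := hθi hb.1 ha.1 hab
      exact hb.2 (this ▸ ha.2)
    have hB1Q : θ '' (A ∩ C) ⊆ Q := by
      have : θ '' (A ∩ C) ⊆ B ∩ Q := by
        rw [← hθPQ]
        exact image_mono (inter_subset_inter_right A hCP)
      exact this.trans inter_subset_right
    obtain ⟨x0, hx0C, hx0A⟩ := hAc C hC.isOpen (hne.mono inter_subset_right)
    obtain ⟨y0, hy0Q, hy0B⟩ := hBc Q hQ.isOpen ((hne.image θ).mono hB1Q)
    obtain ⟨P', hP'1, hP'2, hP'3⟩ := clopen_between (U := U ∩ C ∩ {x0}ᶜ) hAC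
      ((hU.inter hC.isOpen).inter isOpen_compl_singleton) (by
        intro x hx
        exact ⟨⟨hCU hx, hx.2⟩, fun h => hx0A (h ▸ hx.1)⟩)
    obtain ⟨Q', hQ'1, hQ'2, hQ'3⟩ := clopen_between (U := V ∩ Q ∩ (θ '' (A \ C))ᶜ ∩ {y0}ᶜ) hB1
      (((hV.inter hQ.isOpen).inter hB2.isClosed.isOpen_compl).inter isOpen_compl_singleton) (by
        intro y hy
        refine ⟨⟨⟨hCV hy, hB1Q hy⟩, hBdisj y hy⟩, ?_⟩
        intro h
        have : y ∈ B := by
          rw [← hθB]; exact image_mono inter_subset_left hy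
        exact hy0B (h ▸ this))
    have hPn : P'.Nonempty := hne.mono hP'2
    have hQn : Q'.Nonempty := (hne.image θ).mono hQ'2
    have hx0P' : x0 ∉ P' := fun h => (hP'3 h).2 rfl
    have hy0Q' : y0 ∉ Q' := fun h => (hQ'3 h).2 rfl
    refine ⟨P', Q', hP'1, hQ'1, fun x hx => ⟨hCP (hP'3 hx).1.2, (hP'3 hx).1.1⟩,
      fun x hx => ⟨(hQ'3 hx).1.1.2, (hQ'3 hx).1.1.1⟩, ?_, ?_, ?_, ?_⟩
    · apply Subset.antisymm
      · exact fun x hx => ⟨hx.1, (hP'3 hx.2).1.2⟩
      · exact fun x hx => ⟨hx.1, hP'2 hx⟩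
    · apply Subset.antisymm
      · rintro y ⟨hy, hy'⟩
        rw [← hθB] at hy
        obtain ⟨a, ha, rfl⟩ := hy
        by_cases haC : a ∈ C
        · exact ⟨a, ⟨ha, haC⟩, rfl⟩
        · exact absurd ⟨a, ⟨ha, haC⟩, rfl⟩ (hQ'3 hy').1.2
      · intro y hy
        refine ⟨?_, hQ'2 hy⟩
        rw [← hθB]; exact image_mono inter_subset_left hy
    · exact cantor_clopen P' Q' hP'1 hQ'1 hPn hQn (fun h => hx0P' (h ▸ mem_univ _))
        (fun h => hy0Q' (h ▸ mem_univ _))
    · apply cantor_clopen (P \ P') (Q \ Q') (hP.diff hP'1) (hQ.diff hQ'1)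
        ⟨x0, hCP hx0C, hx0P'⟩ ⟨y0, hy0Q, hy0Q'⟩
      · intro h
        obtain ⟨x, hx⟩ := hPn
        have : x ∈ P \ P' := h ▸ mem_univ x
        exact this.2 hx
      · intro h
        obtain ⟨x, hx⟩ := hQn
        have : x ∈ Q \ Q' := h ▸ mem_univ x
        exact this.2 hx
  · rw [not_nonempty_iff_eq_empty] at hne
    refine ⟨∅, ∅, isClopen_empty, isClopen_empty, empty_subset _, empty_subset _, by simp [hne],
      by simp [hne], ⟨Homeomorph.refl _, fun x => tail_equiv.refl x, by simp⟩, ?_⟩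
    simpa using hPQ

end Pool.Agent.TH722.CR
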