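import Mathlib

set_option autoImplicit false

namespace Pool.Agent.TH722.CR

open Set MeasureTheory TopologicalSpace Filter

theorem meas_index {X Y : Type} [MeasurableSpace X] [MeasurableSpace Y] (F : ℕ → X → Y)
    (hF : ∀ n, Measurable (F n)) (N : X → ℕ) (hN : Measurable N) :
    Measurable (fun x => F (N x) x) := by
  have h : Measurable (fun p : X × ℕ => F p.2 p.1) := measurable_from_prod_countable_left hF
  exact h.comp (measurable_id.prodMk hN)

theorem exists_qi {X : Type} [MeasurableSpace X] (s : ℕ → X → X)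
    (hs : ∀ n, Measurable (s n)) (E : X → X → Prop)
    (hE : Equivalence E) (hsE : ∀ x y, E x y ↔ ∃ n, s n x = y) (μ : Measure X)
    [IsProbabilityMeasure μ] :
    ∃ μ' : Measure X, IsProbabilityMeasure μ' ∧ μ ≪ μ' ∧
      ∀ n V, MeasurableSet V → μ' V = 0 → μ' (s n ⁻¹' V) = 0 := by
  let μ' : Measure X := Measure.sum (fun n => ((2 : ENNReal)⁻¹ ^ (n + 1)) • μ.map (s n))
  have happ : ∀ V, MeasurableSet V → μ' V = ∑' n, (2 : ENNReal)⁻¹ ^ (n + 1) * μ (s n ⁻¹' V) := by
    intro V hV
    rw [Measure.sum_apply _ hV]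
    congr 1; ext n
    rw [Measure.smul_apply, Measure.map_apply (hs n) hV, smul_eq_mul]
  have h0 : ∀ V, MeasurableSet V → (μ' V = 0 ↔ ∀ n, μ (s n ⁻¹' V) = 0) := by
    intro V hV
    rw [happ V hV, ENNReal.tsum_eq_zero]
    refine forall_congr' fun n => ?_
    rw [mul_eq_zero]
    constructor
    · rintro (h | h)
      · exact absurd h (pow_ne_zero _ (by simp))
      · exact h
    · exact Or.inr
  have hsub : ∀ V : Set X, V ⊆ ⋃ n, s n ⁻¹' V := by
    intro V x hx
    obtain ⟨n, hn⟩ := (hsE x x).1 (hE.refl x)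
    exact mem_iUnion.2 ⟨n, by rw [mem_preimage, hn]; exact hx⟩
  refine ⟨μ', ⟨?_⟩, ?_, ?_⟩
  · rw [happ _ MeasurableSet.univ]
    simp only [preimage_univ, measure_univ, mul_one]
    simp only [pow_succ]
    rw [ENNReal.tsum_mul_right, ENNReal.tsum_geometric_two]
    exact ENNReal.mul_inv_cancel (by simp) (by simp)
  · refine Measure.AbsolutelyContinuous.mk ?_
    intro V hV h
    rw [h0 V hV] at h
    exact measure_mono_null (hsub V) (measure_iUnion_null h)
  · intro n V hV h
    rw [h0 V hV] at h
    rw [h0 _ (hs n hV)]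
    intro m
    refine measure_mono_null ?_ (measure_iUnion_null h)
    intro x hx
    have h1 : E x (s n (s m x)) := hE.trans ((hsE _ _).2 ⟨m, rfl⟩) ((hsE _ _).2 ⟨n, rfl⟩)
    obtain ⟨k, hk⟩ := (hsE _ _).1 h1
    exact mem_iUnion.2 ⟨k, by rw [mem_preimage, hk]; exact hx⟩


section decomp

variable {X : Type} [MeasurableSpace X] [StandardBorelSpace X] (s : ℕ → X → X)
  (hs : ∀ n, Measurable (s n)) (E : X → X → Prop) (hE : Equivalence E)
  (hsE : ∀ x y, E x y ↔ ∃ n, s n x = y)

/-- a compression of an invariant set -/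
def Comp (E : X → X → Prop) (S : Set X) : Prop :=
  MeasurableSet S ∧ (∀ x y, E x y → x ∈ S → y ∈ S) ∧ ∃ f : X → X, Measurable f ∧
    Function.Injective f ∧ (∀ x, E x (f x)) ∧ ∀ x ∈ S, ∃ y, y ∉ range f ∧ E x y

omit [StandardBorelSpace X] in
include hE in
theorem comp_iUnion (S : ℕ → Set X) (hS : ∀ i, Comp E (S i)) : Comp E (⋃ i, S i) := by
  classical
  choose hSm hSE f hfm hfi hfE hf using hS
  refine ⟨MeasurableSet.iUnion hSm, ?_, ?_⟩
  · intro x y hxy hx
    obtain ⟨i, hi⟩ := mem_iUnion.1 hx
    exact mem_iUnion.2 ⟨i, hSE i x y hxy hi⟩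
  · -- index function
    let F : X → X := fun x => if h : ∃ i, x ∈ S i then f (Nat.find h) x else x
    have hfind : ∀ x y, E x y → (∀ i, x ∈ S i ↔ y ∈ S i) := fun x y hxy i =>
      ⟨fun h => hSE i x y hxy h, fun h => hSE i y x (hE.symm hxy) h⟩
    have hFE : ∀ x, E x (F x) := by
      intro x
      by_cases h : ∃ i, x ∈ S i
      · simp only [F, dif_pos h]; exact hfE _ x
      · simp only [F, dif_neg h]; exact hE.refl x
    have hfeq : ∀ x y, E x y → ∀ (hx : ∃ i, x ∈ S i) (hy : ∃ i, y ∈ S i),
        Nat.find hx = Nat.find hy := by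
      intro x y hxy hx hy
      apply le_antisymm
      · exact Nat.find_min' hx ((hfind x y hxy _).2 (Nat.find_spec hy))
      · exact Nat.find_min' hy ((hfind x y hxy _).1 (Nat.find_spec hx))
    have hFeq : ∀ x y, E x y → ∀ (hx : ∃ i, x ∈ S i), F y = f (Nat.find hx) y := by
      intro x y hxy hx
      have hy : ∃ i, y ∈ S i := by
        obtain ⟨i, hi⟩ := hx
        exact ⟨i, hSE i x y hxy hi⟩
      simp only [F, dif_pos hy]
      rw [hfeq x y hxy hx hy]
    refine ⟨F, ?_, ?_, hFE, ?_⟩
    · -- measurable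
      let N : X → ℕ := fun x => if h : ∃ i, x ∈ S i then Nat.find h + 1 else 0
      have hN : Measurable N := by
        apply measurable_to_countable'
        intro n
        cases n with
        | zero =>
          have : N ⁻¹' {0} = (⋃ i, S i)ᶜ := by
            ext x
            simp only [N, mem_preimage, mem_singleton_iff, mem_compl_iff, mem_iUnion]
            by_cases h : ∃ i, x ∈ S i
            · simp only [dif_pos h]; simp [h]
            · simp only [dif_neg h]; simp [h]
          rw [this]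
          exact (MeasurableSet.iUnion hSm).compl
        | succ n =>
          have : N ⁻¹' {n + 1} = S n ∩ ⋂ i : Fin n, (S i)ᶜ := by
            ext x
            simp only [N, mem_preimage, mem_singleton_iff, mem_inter_iff, mem_iInter,
              mem_compl_iff]
            by_cases h : ∃ i, x ∈ S i
            · simp only [dif_pos h]
              rw [Nat.add_right_cancel_iff, Nat.find_eq_iff]
              constructor
              · rintro ⟨h1, h2⟩
                exact ⟨h1, fun i => h2 i i.2⟩
              · rintro ⟨h1, h2⟩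
                exact ⟨h1, fun i hi => h2 ⟨i, hi⟩⟩
            · simp only [dif_neg h]
              constructor
              · intro h'; omega
              · rintro ⟨h1, _⟩; exact absurd ⟨n, h1⟩ h
          rw [this]
          exact (hSm n).inter (MeasurableSet.iInter fun i => (hSm i).compl)
      let G : ℕ → X → X := fun n => Nat.casesOn n id f
      have hFN : F = fun x => G (N x) x := by
        ext x
        by_cases h : ∃ i, x ∈ S i
        · simp only [F, N, dif_pos h, G]
        · simp only [F, N, dif_neg h, G]; rfl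
      rw [hFN]
      refine meas_index G ?_ N hN
      intro n
      cases n with
      | zero => exact measurable_id
      | succ n => exact hfm n
    · intro x y hxy
      have hE1 : E x y := hE.trans (hFE x) (hxy ▸ hE.symm (hFE y))
      by_cases h : ∃ i, x ∈ S i
      · have e1 := hFeq x x (hE.refl x) h
        have e2 := hFeq x y hE1 h
        rw [e1, e2] at hxy
        exact hfi _ hxy
      · have h' : ¬ ∃ i, y ∈ S i := by
          rintro ⟨i, hi⟩
          exact h ⟨i, (hfind x y hE1 i).2 hi⟩
        simpa only [F, dif_neg h, dif_neg h'] using hxy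
    · intro x hx
      have hx' : ∃ i, x ∈ S i := mem_iUnion.1 hx
      obtain ⟨y, hy, hxy⟩ := hf (Nat.find hx') x (Nat.find_spec hx')
      refine ⟨y, ?_, hxy⟩
      rintro ⟨w, hw⟩
      have hwx : E x w := hE.trans hxy (hw ▸ hE.symm (hFE w))
      rw [hFeq x w hwx hx'] at hw
      exact hy ⟨w, hw⟩

include hs hE hsE in
/-- maximal compressible set -/
theorem exists_max_comp (μ : Measure X) [IsProbabilityMeasure μ] :
    ∃ S, Comp E S ∧ ∀ f : X → X, Measurable f → Function.Injective f → (∀ x, E x (f x)) →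
      μ (Sᶜ \ range f) = 0 := by
  let A : Set ENNReal := {a | ∃ S, Comp E S ∧ μ S = a}
  have hA0 : A.Nonempty := ⟨0, ∅, ⟨MeasurableSet.empty, by simp, id, measurable_id,
    Function.injective_id, hE.refl, by simp⟩, measure_empty⟩
  obtain ⟨u, -, hu2, hu3⟩ := exists_seq_tendsto_sSup hA0 (OrderTop.bddAbove A)
  choose S hS hSu using hu3
  have hU := comp_iUnion E hE S hS
  have hle : ∀ T, Comp E T → μ T ≤ μ (⋃ i, S i) := by
    intro T hT
    have h1 : μ T ≤ sSup A := le_sSup ⟨T, hT, rfl⟩
    refine h1.trans (le_of_tendsto' hu2 fun n => ?_)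
    rw [← hSu n]
    exact measure_mono (subset_iUnion S n)
  refine ⟨⋃ i, S i, hU, ?_⟩
  intro f hf hfi hfE
  have hr : MeasurableSet (range f) := by
    rw [← image_univ]
    exact MeasurableSet.univ.image_of_measurable_injOn hf hfi.injOn
  let T : Set X := (⋃ i, S i)ᶜ ∩ ⋃ n, s n ⁻¹' (range f)ᶜ
  have hTm : MeasurableSet T := hU.1.compl.inter (MeasurableSet.iUnion fun n => hs n hr.compl)
  have hTE : ∀ x y, E x y → x ∈ T → y ∈ T := by
    rintro x y hxy ⟨h1, h2⟩
    refine ⟨fun h => h1 (hU.2.1 y x (hE.symm hxy) h), ?_⟩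
    obtain ⟨n, hn⟩ := mem_iUnion.1 h2
    obtain ⟨m, hm⟩ := (hsE y (s n x)).1 (hE.trans (hE.symm hxy) ((hsE _ _).2 ⟨n, rfl⟩))
    exact mem_iUnion.2 ⟨m, by rw [mem_preimage, hm]; exact hn⟩
  have hT : Comp E T := by
    refine ⟨hTm, hTE, f, hf, hfi, hfE, ?_⟩
    rintro x ⟨-, h2⟩
    obtain ⟨n, hn⟩ := mem_iUnion.1 h2
    exact ⟨s n x, hn, (hsE _ _).2 ⟨n, rfl⟩⟩
  have hUT : Comp E ((⋃ i, S i) ∪ T) := by
    have := comp_iUnion E hE (fun n : ℕ => if n = 0 then ⋃ i, S i else T) (by
      intro i
      by_cases h : i = 0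
      · simpa [h] using hU
      · simpa [h] using hT)
    convert this using 1
    ext x
    simp only [mem_union, mem_iUnion]
    constructor
    · rintro (⟨i, h⟩ | h)
      · exact ⟨0, by simpa using ⟨i, h⟩⟩
      · exact ⟨1, by simpa using h⟩
    · rintro ⟨n, hn⟩
      by_cases h : n = 0
      · left; simpa [h] using hn
      · right; simpa [h] using hn
  have h3 := hle _ hUT
  have h4 : Disjoint (⋃ i, S i) T := by
    rw [Set.disjoint_left]
    intro x hx hx'
    exact hx'.1 hx
  rw [measure_union h4 hTm] at h3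
  have h5 : μ T = 0 := by
    have h6 : μ (⋃ i, S i) ≠ ⊤ := measure_ne_top _ _
    by_contra h7
    exact absurd h3 (not_le.2 (ENNReal.lt_add_right h6 h7))
  refine measure_mono_null ?_ h5
  rintro x ⟨h1, h2⟩
  refine ⟨h1, ?_⟩
  obtain ⟨n, hn⟩ := (hsE x x).1 (hE.refl x)
  exact mem_iUnion.2 ⟨n, by rw [mem_preimage, hn]; exact h2⟩

include hs hE hsE in
/-- stability of a compressible set -/
theorem stable_of_comp (hinv : ∀ n x, s n (s n x) = x) (S : Set X) (hS : Comp E S) :
    ∃ st : X → ℕ → X, (∀ n, Measurable fun x => st x n) ∧ (∀ x n, E x (st x n)) ∧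
      ∀ x ∈ S, ∀ y ∈ S, ∀ m n, st x m = st y n → x = y ∧ m = n := by
  classical
  obtain ⟨hSm, hSE, f, hf, hfi, hfE, hfS⟩ := hS
  have hr : MeasurableSet (range f) := by
    rw [← image_univ]
    exact MeasurableSet.univ.image_of_measurable_injOn hf hfi.injOn
  let P : ℕ → X → Prop := fun n x => s n x ∉ range f ∨ x ∉ S
  have hP : ∀ x, ∃ n, P n x := by
    intro x
    by_cases hx : x ∈ S
    · obtain ⟨y, hy, hxy⟩ := hfS x hx
      obtain ⟨n, rfl⟩ := (hsE _ _).1 hxy
      exact ⟨n, Or.inl hy⟩
    · exact ⟨0, Or.inr hx⟩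
  have hPm : ∀ n, MeasurableSet {x | P n x} := fun n =>
    ((hs n) hr.compl).union hSm.compl
  let N : X → ℕ := fun x => Nat.find (hP x)
  have hN : Measurable N := measurable_find hP hPm
  have hNS : ∀ x ∈ S, s (N x) x ∉ range f := by
    intro x hx
    rcases Nat.find_spec (hP x) with h | h
    · exact h
    · exact absurd hx h
  have hfn : ∀ k x, E x (f^[k] x) := by
    intro k
    induction k with
    | zero => exact fun x => hE.refl x
    | succ k ih =>
      intro x
      rw [Function.iterate_succ_apply']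
      exact hE.trans (ih x) (hfE _)
  have hcancel : ∀ i j a b, a ∉ range f → b ∉ range f → f^[i] a = f^[j] b → i = j ∧ a = b := by
    intro i
    induction i with
    | zero =>
      intro j a b ha hb h
      cases j with
      | zero => exact ⟨rfl, h⟩
      | succ j =>
        rw [Function.iterate_succ_apply'] at h
        exact absurd ⟨_, h.symm⟩ ha
    | succ i ih =>
      intro j a b ha hb h
      cases j with
      | zero =>
        rw [Function.iterate_succ_apply'] at h
        exact absurd ⟨_, h⟩ hb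
      | succ j =>
        rw [Function.iterate_succ_apply', Function.iterate_succ_apply'] at h
        obtain ⟨h1, h2⟩ := ih j a b ha hb (hfi h)
        exact ⟨by omega, h2⟩
  refine ⟨fun x k => f^[Nat.pair (N x) k] (s (N x) x), ?_, ?_, ?_⟩
  · intro k
    refine meas_index (fun n x => f^[Nat.pair n k] (s n x)) ?_ N hN
    intro n
    exact (hf.iterate _).comp (hs n)
  · intro x k
    exact hE.trans ((hsE _ _).2 ⟨N x, rfl⟩) (hfn _ _)
  · intro x hx y hy m n h
    obtain ⟨h1, h2⟩ := hcancel _ _ _ _ (hNS x hx) (hNS y hy) h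
    rw [Nat.pair_eq_pair] at h1
    refine ⟨?_, h1.2⟩
    have h3 : s (N x) x = s (N x) y := by rw [h2, h1.1]
    rw [← hinv (N x) x, h3, hinv]

end decomp

end Pool.Agent.TH722.CR
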