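import Mathlib

set_option autoImplicit false

namespace Pool.Agent.TH722.CR

open Set MeasureTheory TopologicalSpace

/-- `E` admits a compact action realization. -/
def CAct (X : Type) [MeasurableSpace X] (E : X → X → Prop) : Prop :=
  ∃ (G : Type) (_ : Group G) (_ : Countable G) (Z : Type) (_ : TopologicalSpace Z)
    (_ : CompactSpace Z) (_ : TopologicalSpace.MetrizableSpace Z) (_ : MeasurableSpace Z)
    (_ : BorelSpace Z) (_ : MulAction G Z) (_ : ContinuousConstSMul G Z) (f : X ≃ᵐ Z),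
    ∀ a b : X, E a b ↔ ∃ g : G, g • f a = f b

theorem CAct.congr {X Y : Type} [MeasurableSpace X] [MeasurableSpace Y] (h : X ≃ᵐ Y)
    {E : X → X → Prop} {F : Y → Y → Prop} (hEF : ∀ x x', E x x' ↔ F (h x) (h x'))
    (hF : CAct Y F) : CAct X E := by
  obtain ⟨G, i1, i2, Z, i3, i4, i5, i6, i7, i8, i9, f, hf⟩ := hF
  refine ⟨G, i1, i2, Z, i3, i4, i5, i6, i7, i8, i9, h.trans f, ?_⟩
  intro a b
  rw [hEF, hf]
  rfl

/-- a relation generated by countably many homeomorphisms of a compact metrizable space -/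
theorem CAct.of_homeos {K : Type} [TopologicalSpace K] [CompactSpace K] [MetrizableSpace K]
    [MeasurableSpace K] [BorelSpace K] {ι : Type} [Countable ι] (T : ι → K ≃ₜ K)
    (R : K → K → Prop) (hR : Equivalence R) (h1 : ∀ i x, R x (T i x))
    (h2 : ∀ x y, R x y → Relation.EqvGen (fun a b => ∃ i, T i a = b) x y) : CAct K R := by
  let φ : FreeGroup ι →* (K ≃ₜ K) := FreeGroup.lift T
  let act : MulAction (FreeGroup ι) K :=
    { smul := fun g x => φ g x
      one_smul := fun x => by
        change φ 1 x = x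
        rw [map_one]; rfl
      mul_smul := fun g h x => by
        change φ (g * h) x = φ g (φ h x)
        rw [map_mul]; rfl }
  have hsm : ∀ (g : FreeGroup ι) (x : K), g • x = φ g x := fun g x => rfl
  refine ⟨FreeGroup ι, inferInstance, inferInstance, K, inferInstance, inferInstance,
    inferInstance, inferInstance, inferInstance, act, ⟨fun g => (φ g).continuous⟩,
    MeasurableEquiv.refl K, ?_⟩
  intro a b
  change R a b ↔ ∃ g : FreeGroup ι, φ g a = b
  constructor
  · intro h
    have h' := h2 a b h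
    induction h' with
    | rel x y hxy =>
      obtain ⟨i, hi⟩ := hxy
      exact ⟨FreeGroup.of i, by rw [← hi]; simp [φ]⟩
    | refl x => exact ⟨1, by rw [map_one]; rfl⟩
    | symm x y hxy ih =>
      obtain ⟨g, hg⟩ := ih (hR.symm h)
      refine ⟨g⁻¹, ?_⟩
      rw [map_inv, ← hg]
      exact (φ g).symm_apply_apply x
    | trans x y z hxy hyz ih1 ih2 =>
      have hxy' : ∀ u v, Relation.EqvGen (fun a b => ∃ i, T i a = b) u v → R u v := by
        intro u v huv
        induction huv with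
        | rel x y hxy =>
          obtain ⟨i, hi⟩ := hxy
          rw [← hi]; exact h1 i x
        | refl x => exact hR.refl x
        | symm x y _ ih => exact hR.symm ih
        | trans x y z _ _ ih1 ih2 => exact hR.trans ih1 ih2
      obtain ⟨g, hg⟩ := ih1 (hxy' _ _ hxy)
      obtain ⟨g', hg'⟩ := ih2 (hxy' _ _ hyz)
      refine ⟨g' * g, ?_⟩
      rw [map_mul, ← hg', ← hg]; rfl
  · rintro ⟨g, rfl⟩
    have key : ∀ g : FreeGroup ι, ∀ a, R a (φ g a) := by
      let S : Subgroup (K ≃ₜ K) :=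
        { carrier := {t | ∀ x, R x (t x)}
          mul_mem' := fun {t u} ht hu x => hR.trans (hu x) (ht (u x))
          one_mem' := fun x => hR.refl x
          inv_mem' := fun {t} ht x => by
            have h4 := ht (t⁻¹ x)
            have h5 : t (t⁻¹ x) = x := t.apply_symm_apply x
            rw [h5] at h4
            exact hR.symm h4 }
      have hle : φ.range ≤ S := by
        apply FreeGroup.range_lift_le
        rintro _ ⟨i, rfl⟩
        exact fun x => h1 i x
      intro g a
      exact hle ⟨g, rfl⟩ a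
    exact key g a

theorem borelSpace_sum (Z Z' : Type) [TopologicalSpace Z] [TopologicalSpace Z']
    [MeasurableSpace Z] [MeasurableSpace Z'] [BorelSpace Z] [BorelSpace Z'] :
    BorelSpace (Z ⊕ Z') := by
  constructor
  apply le_antisymm
  · intro A hA
    have h1 : MeasurableSet (Sum.inl ⁻¹' A : Set Z) := measurable_inl hA
    have h2 : MeasurableSet (Sum.inr ⁻¹' A : Set Z') := measurable_inr hA
    have h3 : A = Sum.inl '' (Sum.inl ⁻¹' A) ∪ Sum.inr '' (Sum.inr ⁻¹' A) := by
      ext x; cases x <;> simp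
    have m1 : @Measurable Z (Z ⊕ Z') _ (borel (Z ⊕ Z')) Sum.inl := by
      let _ : MeasurableSpace (Z ⊕ Z') := borel (Z ⊕ Z')
      have _ : BorelSpace (Z ⊕ Z') := ⟨rfl⟩
      exact continuous_inl.measurable
    let _ : MeasurableSpace (Z ⊕ Z') := borel (Z ⊕ Z')
    have _ : BorelSpace (Z ⊕ Z') := ⟨rfl⟩
    have e1 : MeasurableEmbedding (Sum.inl : Z → Z ⊕ Z') :=
      Topology.IsOpenEmbedding.inl.measurableEmbedding
    have e2 : MeasurableEmbedding (Sum.inr : Z' → Z ⊕ Z') :=
      Topology.IsOpenEmbedding.inr.measurableEmbedding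
    rw [h3]
    exact (e1.measurableSet_image.2 h1).union (e2.measurableSet_image.2 h2)
  · apply MeasurableSpace.generateFrom_le
    intro U hU
    have h1 : MeasurableSet (Sum.inl ⁻¹' U : Set Z) := (hU.preimage continuous_inl).measurableSet
    have h2 : MeasurableSet (Sum.inr ⁻¹' U : Set Z') := (hU.preimage continuous_inr).measurableSet
    exact measurableSet_sum_iff.2 ⟨h1, h2⟩

theorem CAct.sum {X Y : Type} [MeasurableSpace X] [MeasurableSpace Y] {E : X → X → Prop}
    {F : Y → Y → Prop} (hE : CAct X E) (hF : CAct Y F) : CAct (X ⊕ Y) (Sum.LiftRel E F) := by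
  obtain ⟨G, i1, i2, Z, i3, i4, i5, i6, i7, i8, i9, f, hf⟩ := hE
  obtain ⟨G', i1', i2', Z', i3', i4', i5', i6', i7', i8', i9', f', hf'⟩ := hF
  have := borelSpace_sum Z Z'
  let act : MulAction (G × G') (Z ⊕ Z') :=
    { smul := fun g x => Sum.map (fun z => g.1 • z) (fun z => g.2 • z) x
      one_smul := fun x => by
        change Sum.map (fun z => (1 : G) • z) (fun z => (1 : G') • z) x = x
        cases x <;> simp
      mul_smul := fun g h x => by
        change Sum.map (fun z => (g.1 * h.1) • z) (fun z => (g.2 * h.2) • z) x =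
          Sum.map (fun z => g.1 • z) (fun z => g.2 • z)
            (Sum.map (fun z => h.1 • z) (fun z => h.2 • z) x)
        cases x <;> simp [mul_smul] }
  refine ⟨G × G', inferInstance, inferInstance, Z ⊕ Z', inferInstance, inferInstance,
    inferInstance, inferInstance, inferInstance, act, ⟨fun g => ?_⟩, 
    MeasurableEquiv.sumCongr f f', ?_⟩
  · change Continuous (fun x : Z ⊕ Z' => Sum.map (fun z => g.1 • z) (fun z => g.2 • z) x)
    exact (continuous_const_smul g.1).sumMap (continuous_const_smul g.2)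
  · rintro (a | a) (b | b)
    · constructor
      · intro h
        cases h with
        | inl h =>
          obtain ⟨g, hg⟩ := (hf _ _).1 h
          exact ⟨(g, 1), by
            change Sum.map (fun z => g • z) (fun z => (1 : G') • z) (Sum.inl (f a)) = Sum.inl (f b)
            simp [hg]⟩
      · rintro ⟨g, hg⟩
        refine Sum.LiftRel.inl ((hf _ _).2 ⟨g.1, ?_⟩)
        change Sum.map (fun z => g.1 • z) (fun z => g.2 • z) (Sum.inl (f a)) = Sum.inl (f b) at hg
        simpa using hg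
    · constructor
      · intro h; cases h
      · rintro ⟨g, hg⟩
        change Sum.map (fun z => g.1 • z) (fun z => g.2 • z) (Sum.inl (f a)) = Sum.inr (f' b) at hg
        simp at hg
    · constructor
      · intro h; cases h
      · rintro ⟨g, hg⟩
        change Sum.map (fun z => g.1 • z) (fun z => g.2 • z) (Sum.inr (f' a)) = Sum.inl (f b) at hg
        simp at hg
    · constructor
      · intro h
        cases h with
        | inr h =>
          obtain ⟨g, hg⟩ := (hf' _ _).1 h
          exact ⟨(1, g), by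
            change Sum.map (fun z => (1 : G) • z) (fun z => g • z) (Sum.inr (f' a)) = Sum.inr (f' b)
            simp [hg]⟩
      · rintro ⟨g, hg⟩
        refine Sum.LiftRel.inr ((hf' _ _).2 ⟨g.2, ?_⟩)
        change Sum.map (fun z => g.1 • z) (fun z => g.2 • z) (Sum.inr (f' a)) = Sum.inr (f' b) at hg
        simpa using hg

section core

variable {K : Type} {H : K → K → Prop} {X : Type} {E : X → X → Prop}

/-- the relation on `K` generated by `H` and the image of `E|Y` under `ψ` -/
def Rel (H : K → K → Prop) (E : X → X → Prop) (ψ : X → K) (Y : Set X) (p q : K) : Prop :=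
  H p q ∨ ∃ x ∈ Y, ∃ y ∈ Y, H p (ψ x) ∧ E x y ∧ H (ψ y) q

theorem Rel.equivalence (hH : Equivalence H) (hE : Equivalence E) (ψ : X → K) (Y : Set X)
    (hψ : ∀ x ∈ Y, ∀ y ∈ Y, H (ψ x) (ψ y) → E x y) : Equivalence (Rel H E ψ Y) := by
  refine ⟨fun p => Or.inl (hH.refl p), ?_, ?_⟩
  · rintro p q (h | ⟨x, hx, y, hy, h1, h2, h3⟩)
    · exact Or.inl (hH.symm h)
    · exact Or.inr ⟨y, hy, x, hx, hH.symm h3, hE.symm h2, hH.symm h1⟩
  · rintro p q r (h | ⟨x, hx, y, hy, h1, h2, h3⟩) (h' | ⟨x', hx', y', hy', h1', h2', h3'⟩)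
    · exact Or.inl (hH.trans h h')
    · exact Or.inr ⟨x', hx', y', hy', hH.trans h h1', h2', h3'⟩
    · exact Or.inr ⟨x, hx, y, hy, h1, h2, hH.trans h3 h'⟩
    · exact Or.inr ⟨x, hx, y', hy', h1, hE.trans h2 (hE.trans (hψ y hy x' hx' (hH.trans h3 h1'))
        h2'), h3'⟩

theorem Rel.cact [TopologicalSpace K] [CompactSpace K] [MetrizableSpace K] [MeasurableSpace K]
    [BorelSpace K] (hH : Equivalence H) (V : ℕ → K ≃ₜ K) (hV : ∀ x y, H x y ↔ ∃ k, V k x = y)
    (hE : Equivalence E) (s : ℕ → X → X) (hsE : ∀ x y, E x y ↔ ∃ n, s n x = y)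
    (ψ : X → K) (Y : Set X) (hYE : ∀ x y, E x y → x ∈ Y → y ∈ Y)
    (hψ : ∀ x ∈ Y, ∀ y ∈ Y, H (ψ x) (ψ y) → E x y)
    (C : ℕ → Set X) (hC : ∀ x ∈ Y, ∃ a n, s n x ∈ C a) (hCY : ∀ a, C a ⊆ Y)
    (T : ℕ → ℕ → K ≃ₜ K) (hT1 : ∀ a n, ∀ c ∈ C a, T a n (ψ c) = ψ (s n c))
    (hT2 : ∀ a n y, y ∉ ψ '' C a → H y (T a n y)) : CAct K (Rel H E ψ Y) := by
  have hR := Rel.equivalence hH hE ψ Y hψ
  let T' : ℕ ⊕ (ℕ × ℕ) → K ≃ₜ K := Sum.elim V (fun p => T p.1 p.2)
  apply CAct.of_homeos T' _ hR
  · rintro (i | ⟨a, n⟩) x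
    · exact Or.inl ((hV _ _).2 ⟨i, rfl⟩)
    · change Rel H E ψ Y x (T a n x)
      by_cases hx : x ∈ ψ '' C a
      · obtain ⟨c, hc, rfl⟩ := hx
        rw [hT1 a n c hc]
        have h1 : E c (s n c) := (hsE _ _).2 ⟨n, rfl⟩
        exact Or.inr ⟨c, hCY a hc, s n c, hYE _ _ h1 (hCY a hc), hH.refl _, h1, hH.refl _⟩
      · exact Or.inl (hT2 a n x hx)
  · have hHgen : ∀ p q, H p q → Relation.EqvGen (fun a b => ∃ i, T' i a = b) p q := by
      intro p q h
      obtain ⟨k, hk⟩ := (hV _ _).1 h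
      exact Relation.EqvGen.rel _ _ ⟨Sum.inl k, hk⟩
    have hpsi : ∀ a, ∀ c ∈ C a, ∀ y, E c y →
        Relation.EqvGen (fun a b => ∃ i, T' i a = b) (ψ c) (ψ y) := by
      intro a c hc y hy
      obtain ⟨n, rfl⟩ := (hsE _ _).1 hy
      exact Relation.EqvGen.rel _ _ ⟨Sum.inr (a, n), hT1 a n c hc⟩
    rintro p q (h | ⟨x, hx, y, hy, h1, h2, h3⟩)
    · exact hHgen p q h
    · obtain ⟨a, n, hn⟩ := hC x hx
      have e1 : E x (s n x) := (hsE _ _).2 ⟨n, rfl⟩
      refine (hHgen _ _ h1).trans _ _ _ (Relation.EqvGen.trans _ _ _ ?_ (hHgen _ _ h3))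
      exact Relation.EqvGen.trans _ _ _ ((hpsi a _ hn x (hE.symm e1)).symm _ _)
        (hpsi a _ hn y (hE.trans (hE.symm e1) h2))

end core

end Pool.Agent.TH722.CR
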