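import Mathlib
import Pool.Agent.TH722.CR.Core

set_option autoImplicit false

namespace Pool.Agent.TH722.CR

open Set MeasureTheory TopologicalSpace

/-- tame relations: stable and injectively reducible to eventual equality on Baire space -/
def Tame (W : Type) [MeasurableSpace W] (T : W → W → Prop) : Prop :=
  (∃ c : W → ℕ → ℕ, Measurable c ∧ Function.Injective c ∧
    ∀ w w', T w w' ↔ ∃ N, ∀ n, N ≤ n → c w n = c w' n) ∧
  ∃ st : W → ℕ → W, (∀ n, Measurable fun w => st w n) ∧ (∀ w n, T w (st w n)) ∧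
    ∀ w w' n n', st w n = st w' n' → w = w' ∧ n = n'

theorem Tame.equivalence {W : Type} [MeasurableSpace W] {T : W → W → Prop} (h : Tame W T) :
    Equivalence T := by
  obtain ⟨⟨c, -, -, hc⟩, -⟩ := h
  refine ⟨fun w => (hc _ _).2 ⟨0, fun n _ => rfl⟩, ?_, ?_⟩
  · intro w w' h
    obtain ⟨N, hN⟩ := (hc _ _).1 h
    exact (hc _ _).2 ⟨N, fun n hn => (hN n hn).symm⟩
  · intro w w' w'' h h'
    obtain ⟨N, hN⟩ := (hc _ _).1 h
    obtain ⟨N', hN'⟩ := (hc _ _).1 h'
    exact (hc _ _).2 ⟨max N N', fun n hn => (hN n (by omega)).trans (hN' n (by omega))⟩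

theorem Tame.sum {W W' : Type} [MeasurableSpace W] [MeasurableSpace W'] {T : W → W → Prop}
    {T' : W' → W' → Prop} (h : Tame W T) (h' : Tame W' T') :
    Tame (W ⊕ W') (Sum.LiftRel T T') := by
  obtain ⟨⟨c, hc1, hc2, hc3⟩, st, hs1, hs2, hs3⟩ := h
  obtain ⟨⟨c', hc1', hc2', hc3'⟩, st', hs1', hs2', hs3'⟩ := h'
  refine ⟨⟨fun w => Sum.elim (fun w n => 2 * c w n) (fun w n => 2 * c' w n + 1) w, ?_, ?_, ?_⟩,
    fun w n => Sum.map (fun w => st w n) (fun w => st' w n) w, ?_, ?_, ?_⟩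
  · apply Measurable.sumElim
    · rw [measurable_pi_iff] at hc1 ⊢
      intro n
      exact (hc1 n).const_mul 2
    · rw [measurable_pi_iff] at hc1' ⊢
      intro n
      exact ((hc1' n).const_mul 2).add_const 1
  · rintro (w | w) (w' | w') h
    · simp only [Sum.elim_inl] at h
      congr 1
      apply hc2
      ext n
      have := congrFun h n
      omega
    · exfalso
      have := congrFun h 0
      simp only [Sum.elim_inl, Sum.elim_inr] at this
      omega
    · exfalso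
      have := congrFun h 0
      simp only [Sum.elim_inl, Sum.elim_inr] at this
      omega
    · simp only [Sum.elim_inr] at h
      congr 1
      apply hc2'
      ext n
      have := congrFun h n
      omega
  · rintro (w | w) (w' | w')
    · rw [Sum.liftRel_inl_inl, hc3]
      refine exists_congr fun N => forall_congr' fun n => forall_congr' fun _ => ?_
      simp only [Sum.elim_inl]; omega
    · constructor
      · intro h; cases h
      · rintro ⟨N, hN⟩
        have := hN N le_rfl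
        simp only [Sum.elim_inl, Sum.elim_inr] at this
        omega
    · constructor
      · intro h; cases h
      · rintro ⟨N, hN⟩
        have := hN N le_rfl
        simp only [Sum.elim_inl, Sum.elim_inr] at this
        omega
    · rw [Sum.liftRel_inr_inr, hc3']
      refine exists_congr fun N => forall_congr' fun n => forall_congr' fun _ => ?_
      simp only [Sum.elim_inr]; omega
  · intro n
    exact Measurable.sumMap (hs1 n) (hs1' n)
  · rintro (w | w) n
    · exact Sum.LiftRel.inl (hs2 w n)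
    · exact Sum.LiftRel.inr (hs2' w n)
  · rintro (w | w) (w' | w') n n' h
    · simp only [Sum.map_inl, Sum.inl.injEq] at h
      obtain ⟨h1, h2⟩ := hs3 _ _ _ _ h
      exact ⟨by rw [h1], h2⟩
    · simp at h
    · simp at h
    · simp only [Sum.map_inr, Sum.inr.injEq] at h
      obtain ⟨h1, h2⟩ := hs3' _ _ _ _ h
      exact ⟨by rw [h1], h2⟩

/-- a conull invariant part of `E` plus a tame relation has a compact action realization -/
def PartReal (X : Type) [MeasurableSpace X] (E : X → X → Prop) (μ : Measure X) : Prop :=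
  ∃ (Y : Set X) (W : Type) (_ : MeasurableSpace W) (_ : StandardBorelSpace W) (T : W → W → Prop),
    MeasurableSet Y ∧ μ Yᶜ = 0 ∧ (∀ x y, E x y → x ∈ Y → y ∈ Y) ∧ Tame W T ∧
    CAct (Y ⊕ W) (Sum.LiftRel (fun a b : Y => E a b) T)

section core

variable {K : Type} {H : K → K → Prop} {X : Type} {E : X → X → Prop}

theorem Rel.iff_of_notMem (ψ : X → K) (Y : Set X) {p q : K}
    (hp : ¬ ∃ x ∈ Y, H p (ψ x)) : Rel H E ψ Y p q ↔ H p q := by
  constructor
  · rintro (h | ⟨x, hx, y, hy, h1, h2, h3⟩)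
    · exact h
    · exact absurd ⟨x, hx, h1⟩ hp
  · exact Or.inl

theorem Rel.iff_image (hH : Equivalence H) (hE : Equivalence E) (ψ : X → K) (Y : Set X)
    (hψ : ∀ x ∈ Y, ∀ y ∈ Y, H (ψ x) (ψ y) → E x y) {x y : X} (hx : x ∈ Y) (hy : y ∈ Y) :
    Rel H E ψ Y (ψ x) (ψ y) ↔ E x y := by
  constructor
  · rintro (h | ⟨a, ha, b, hb, h1, h2, h3⟩)
    · exact hψ x hx y hy h
    · exact hE.trans (hψ x hx a ha h1) (hE.trans h2 (hψ b hb y hy h3))
  · exact fun h => Or.inr ⟨x, hx, y, hy, hH.refl _, h, hH.refl _⟩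

theorem partReal_of_core [TopologicalSpace K] [CompactSpace K] [MetrizableSpace K]
    [MeasurableSpace K] [BorelSpace K] (hH : Equivalence H) (V : ℕ → K ≃ₜ K)
    (hV : ∀ x y, H x y ↔ ∃ k, V k x = y)
    (hE : Equivalence E) (s : ℕ → X → X) (hsE : ∀ x y, E x y ↔ ∃ n, s n x = y)
    (ψ : X → K) (Y : Set X) (hYE : ∀ x y, E x y → x ∈ Y → y ∈ Y)
    (hψ : ∀ x ∈ Y, ∀ y ∈ Y, H (ψ x) (ψ y) → E x y)
    (C : ℕ → Set X) (hC : ∀ x ∈ Y, ∃ a n, s n x ∈ C a) (hCY : ∀ a, C a ⊆ Y)
    (T : ℕ → ℕ → K ≃ₜ K) (hT1 : ∀ a n, ∀ c ∈ C a, T a n (ψ c) = ψ (s n c))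
    (hT2 : ∀ a n y, y ∉ ψ '' C a → H y (T a n y))
    [MeasurableSpace X] (μ : Measure X) (hYm : MeasurableSet Y) (hYμ : μ Yᶜ = 0)
    (hYK : MeasurableSet {p | ∃ x ∈ Y, H p (ψ x)})
    (h1 : Y ≃ᵐ {p | ∃ x ∈ Y, H p (ψ x)})
    (hh1 : ∀ x x' : Y, E x x' ↔ Rel H E ψ Y (h1 x) (h1 x'))
    (htame : Tame ({p | ∃ x ∈ Y, H p (ψ x)}ᶜ : Set K) (fun a b => H a b)) :
    PartReal X E μ := by
  classical
  have hR := Rel.equivalence hH hE ψ Y hψ
  have hcact := Rel.cact hH V hV hE s hsE ψ Y hYE hψ C hC hCY T hT1 hT2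
  have hK : StandardBorelSpace K := by
    let := metrizableSpaceMetric K
    infer_instance
  refine ⟨Y, ({p | ∃ x ∈ Y, H p (ψ x)}ᶜ : Set K), inferInstance, hYK.compl.standardBorel,
    fun a b => H a b, hYm, hYμ, hYE, htame, ?_⟩
  let e : (Y ⊕ ({p | ∃ x ∈ Y, H p (ψ x)}ᶜ : Set K)) ≃ᵐ K :=
    (MeasurableEquiv.sumCongr h1 (MeasurableEquiv.refl _)).trans (MeasurableEquiv.sumCompl hYK)
  refine CAct.congr e ?_ hcact
  have hinl : ∀ a : Y, e (Sum.inl a) = h1 a := fun a => rfl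
  have hinr : ∀ a : ({p | ∃ x ∈ Y, H p (ψ x)}ᶜ : Set K), e (Sum.inr a) = a := fun a => rfl
  have hno : ∀ (a : Y) (b : ({p | ∃ x ∈ Y, H p (ψ x)}ᶜ : Set K)),
      ¬ Rel H E ψ Y (b : K) (h1 a) := by
    intro a b hab
    rw [Rel.iff_of_notMem ψ Y b.2] at hab
    obtain ⟨x, hx, h⟩ := (h1 a).2
    exact b.2 ⟨x, hx, hH.trans hab h⟩
  rintro (a | a) (b | b)
  · rw [Sum.liftRel_inl_inl, hinl, hinl]
    exact hh1 a b
  · constructor
    · intro h; cases h
    · intro h
      rw [hinl, hinr] at h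
      exact absurd (hR.symm h) (hno a b)
  · constructor
    · intro h; cases h
    · intro h
      rw [hinl, hinr] at h
      exact absurd h (hno b a)
  · rw [Sum.liftRel_inr_inr, hinr, hinr]
    exact (Rel.iff_of_notMem ψ Y a.2).symm

end core

end Pool.Agent.TH722.CR
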