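import Mathlib
import Pool.Agent.H139R3.MF.Top

set_option autoImplicit false

namespace Pool.Agent.TH722.CR

open Set MeasureTheory TopologicalSpace

/-- transport of a continuous map on a compact set -/
theorem exists_theta {X K : Type} [TopologicalSpace X] [TopologicalSpace K] [T2Space K]
    (C : Set X) (hC : IsCompact C) (ψ g : X → K) (hψ : ContinuousOn ψ C) (hg : ContinuousOn g C)
    (hψi : InjOn ψ C) (hgi : InjOn g C) :
    ∃ θ : K → K, (∀ c ∈ C, θ (ψ c) = g c) ∧ ContinuousOn θ (ψ '' C) ∧ InjOn θ (ψ '' C) ∧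
      θ '' (ψ '' C) = g '' C := by
  classical
  let θ : K → K := fun y => if h : ∃ c ∈ C, ψ c = y then g h.choose else y
  have hθ : ∀ c ∈ C, θ (ψ c) = g c := by
    intro c hc
    have h : ∃ c' ∈ C, ψ c' = ψ c := ⟨c, hc, rfl⟩
    simp only [θ, dif_pos h]
    rw [hψi h.choose_spec.1 hc h.choose_spec.2]
  refine ⟨θ, hθ, ?_, ?_, ?_⟩
  · rw [continuousOn_iff_isClosed]
    intro t ht
    have h1 : IsCompact (C ∩ g ⁻¹' t) := by
      obtain ⟨u, hu, hu'⟩ := (continuousOn_iff_isClosed.1 hg) t ht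
      rw [inter_comm, hu', inter_comm]
      exact hC.inter_right hu
    refine ⟨ψ '' (C ∩ g ⁻¹' t), (h1.image_of_continuousOn (hψ.mono inter_subset_left)).isClosed, ?_⟩
    ext y
    constructor
    · rintro ⟨h, c, hc, rfl⟩
      rw [mem_preimage, hθ c hc] at h
      exact ⟨⟨c, ⟨hc, h⟩, rfl⟩, ⟨c, hc, rfl⟩⟩
    · rintro ⟨⟨c, ⟨hc, h⟩, rfl⟩, -⟩
      refine ⟨?_, ⟨c, hc, rfl⟩⟩
      rw [mem_preimage, hθ c hc]
      exact h
  · rintro _ ⟨c, hc, rfl⟩ _ ⟨d, hd, rfl⟩ h
    rw [hθ c hc, hθ d hd] at h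
    rw [hgi hc hd h]
  · rw [image_image]
    exact image_congr fun c hc => hθ c hc

theorem exists_top {X : Type} [MeasurableSpace X] [StandardBorelSpace X] (s : ℕ → X → X)
    (hs : ∀ n, Measurable (s n)) {H : Type} [TopologicalSpace H] [SecondCountableTopology H]
    [MeasurableSpace H] [OpensMeasurableSpace H] (h : X → H) (hh : Measurable h) :
    ∃ t : TopologicalSpace X, @PolishSpace X t ∧ @BorelSpace X t _ ∧
      (∀ n, @Continuous X X t t (s n)) ∧ @Continuous X H t _ h := by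
  let := upgradeStandardBorel X
  obtain ⟨t, -, h1, h2, h3, h4⟩ := Pool.Agent.H139R3.MF.exists_topology s hs h hh
  exact ⟨t, h1, h2, h3, h4⟩

end Pool.Agent.TH722.CR
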