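import Mathlib
import Pool.Agent.TH722.CR.Part
import Pool.Agent.TH722.CR.TopAux
import Pool.Agent.TH722.CR.CantExt
import Pool.Agent.TH722.CR.Decomp
import Pool.Agent.TH722.CR.Jobs
import Pool.Agent.H139R3.MF.Trans

set_option autoImplicit false

namespace Pool.Agent.TH722.CR

open Set MeasureTheory TopologicalSpace

/-- the prefix `1^n 0` -/
def pre (n : ℕ) (x : ℕ → Bool) : ℕ → Bool :=
  fun i => if i < n then true else if i = n then false else x (i - n - 1)

theorem pre_measurable (n : ℕ) : Measurable (pre n) := by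
  rw [measurable_pi_iff]
  intro i
  unfold pre
  by_cases h1 : i < n
  · simp only [h1, if_true]; exact measurable_const
  · by_cases h2 : i = n
    · simp only [h2, if_true, if_false, lt_irrefl]; exact measurable_const
    · simp only [h1, h2, if_false]; exact measurable_pi_apply _

theorem pre_tail (n : ℕ) (x : ℕ → Bool) : Tail x (pre n x) := by
  refine ⟨0, n + 1, fun i => ?_⟩
  have h1 : ¬ n + 1 + i < n := by omega
  have h2 : ¬ n + 1 + i = n := by omega
  simp only [pre, h1, h2, if_false]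
  congr 1; omega

theorem pre_inj {m n : ℕ} {x y : ℕ → Bool} (h : pre m x = pre n y) : x = y ∧ m = n := by
  have key : ∀ m n : ℕ, ∀ x y : ℕ → Bool, m < n → pre m x ≠ pre n y := by
    intro m n x y hmn h
    have := congrFun h m
    simp [pre, hmn] at this
  have hmn : m = n := by
    rcases lt_trichotomy m n with h1 | h1 | h1
    · exact absurd h (key _ _ _ _ h1)
    · exact h1
    · exact absurd h.symm (key _ _ _ _ h1)
  subst hmn
  refine ⟨?_, rfl⟩
  ext i
  have := congrFun h (m + 1 + i)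
  have h1 : ¬ m + 1 + i < m := by omega
  have h2 : ¬ m + 1 + i = m := by omega
  simp only [pre, h1, h2, if_false] at this
  rw [show m + 1 + i - m - 1 = i by omega] at this
  exact this

theorem tail_countable (x : ℕ → Bool) : {y | Tail x y}.Countable := by
  obtain ⟨V, hV⟩ := cantor_gen
  have : {y | Tail x y} = range (fun k => V k x) := by
    ext y
    exact hV x y
  rw [this]
  exact countable_range _

theorem cantor_not_countable : ¬ Countable (ℕ → Bool) := by
  have h2 : Cardinal.mk (ℕ → Bool) = 2 ^ Cardinal.aleph0 := by simp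
  intro h
  have h1 : Cardinal.mk (ℕ → Bool) ≤ Cardinal.aleph0 := Cardinal.mk_le_aleph0_iff.2 h
  rw [h2] at h1
  exact absurd h1 (not_le.2 (Cardinal.cantor _))

instance polish_cantor : PolishSpace (ℕ → Bool) := by
  let := metrizableSpaceMetric (ℕ → Bool)
  infer_instance

/-- a perfect partial transversal for tail equivalence -/
theorem exists_phi : ∃ φ : (ℕ → Bool) → (ℕ → Bool), Continuous φ ∧
    ∀ a b, Tail (φ a) (φ b) → a = b := by
  refine Pool.Agent.H139R3.MF.exists_perfect_transversal cantor_not_countable Tail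
    (fun k => {p | ∀ i, p.1 ((Nat.unpair k).1 + i) = p.2 ((Nat.unpair k).2 + i)}) ?_ ?_
    tail_equiv.refl (fun x y h => tail_equiv.symm h) tail_countable
  · intro k
    have : {p : (ℕ → Bool) × (ℕ → Bool) | ∀ i, p.1 ((Nat.unpair k).1 + i) =
        p.2 ((Nat.unpair k).2 + i)} = ⋂ i, {p | p.1 ((Nat.unpair k).1 + i) =
        p.2 ((Nat.unpair k).2 + i)} := by
      ext p; simp
    rw [this]
    refine isClosed_iInter fun i => isClosed_eq ?_ ?_
    · exact (continuous_apply _).comp continuous_fst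
    · exact (continuous_apply _).comp continuous_snd
  · intro x y
    constructor
    · rintro ⟨m, n, h⟩
      exact ⟨Nat.pair m n, by simpa using h⟩
    · rintro ⟨k, h⟩
      exact ⟨_, _, h⟩

theorem comp_part {X : Type} [MeasurableSpace X] [StandardBorelSpace X] (s : ℕ → X → X)
    (hs : ∀ n, Measurable (s n)) (hinv : ∀ n x, s n (s n x) = x) (E : X → X → Prop)
    (hE : Equivalence E) (hsE : ∀ x y, E x y ↔ ∃ n, s n x = y)
    (st : X → ℕ → X) (hst : ∀ n, Measurable fun x => st x n) (hstE : ∀ x n, E x (st x n))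
    (hsti : ∀ x y m n, st x m = st y n → x = y ∧ m = n)
    (μ : Measure X) [IsFiniteMeasure μ] : PartReal X E μ := by
  classical
  obtain ⟨φ, hφc, hφt⟩ := exists_phi
  obtain ⟨e, he, hei⟩ := MeasurableSpace.measurable_injection_nat_bool_of_countablySeparated X
  obtain ⟨V, hV⟩ := cantor_gen
  let ψ : X → (ℕ → Bool) := fun x => φ (e x)
  have hψm : Measurable ψ := hφc.measurable.comp he
  have hψt : ∀ x y, Tail (ψ x) (ψ y) → x = y := fun x y h => hei (hφt _ _ h)
  have hψi : Function.Injective ψ := fun x y h => hψt x y (by rw [h]; exact tail_equiv.refl _)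
  obtain ⟨t, hP, hB, hsc, hψc⟩ := exists_top s hs ψ hψm
  -- compact sets
  have hcomp : ∀ j : ℕ, ∃ C : Set X, IsCompact C ∧ μ Cᶜ < ((j + 1 : ℕ) : ENNReal)⁻¹ := by
    intro j
    obtain ⟨C, -, h1, h2⟩ := MeasurableSet.univ.exists_isCompact_sdiff_lt (μ := μ)
      (measure_ne_top _ _) (ε := ((j + 1 : ℕ) : ENNReal)⁻¹)
      (ENNReal.inv_ne_zero.2 (ENNReal.natCast_ne_top _))
    exact ⟨C, h1, by rwa [compl_eq_univ_sdiff]⟩
  choose C hCc hCμ using hcomp
  let Y : Set X := ⋃ j, ⋃ n, s n ⁻¹' C j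
  have hYm : MeasurableSet Y :=
    MeasurableSet.iUnion fun j => MeasurableSet.iUnion fun n => hs n (hCc j).measurableSet
  have hmem : ∀ x, x ∈ Y ↔ ∃ j n, s n x ∈ C j := by
    intro x; simp [Y]
  have hYE : ∀ x y, E x y → x ∈ Y → y ∈ Y := by
    intro x y hxy hx
    obtain ⟨j, n, h⟩ := (hmem x).1 hx
    obtain ⟨m, hm⟩ := (hsE y (s n x)).1 (hE.trans (hE.symm hxy) ((hsE _ _).2 ⟨n, rfl⟩))
    exact (hmem y).2 ⟨j, m, by rw [hm]; exact h⟩
  have hCY : ∀ j, C j ⊆ Y := by
    intro j x hx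
    obtain ⟨n, hn⟩ := (hsE x x).1 (hE.refl x)
    exact (hmem x).2 ⟨j, n, by rw [hn]; exact hx⟩
  have hYμ : μ Yᶜ = 0 := by
    have h1 : ∀ j : ℕ, μ Yᶜ ≤ ((j + 1 : ℕ) : ENNReal)⁻¹ := fun j =>
      (measure_mono (compl_subset_compl.2 (hCY j))).trans (hCμ j).le
    have h2 : Filter.Tendsto (fun j : ℕ => (((j + 1 : ℕ) : ENNReal))⁻¹) Filter.atTop
        (nhds 0) := ENNReal.tendsto_inv_nat_nhds_zero.comp (Filter.tendsto_add_atTop_nat 1)
    exact le_antisymm (ge_of_tendsto' h2 h1) bot_le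
  -- extension
  have hrange : interior (range φ) = ∅ := by
    by_contra hne
    obtain ⟨x, hx⟩ := nonempty_iff_ne_empty.2 hne
    have h1 : Filter.Tendsto (fun k : ℕ => Function.update x k (!x k)) Filter.atTop (nhds x) := by
      rw [tendsto_pi_nhds]
      intro i
      refine tendsto_const_nhds.congr' ?_
      filter_upwards [Filter.eventually_gt_atTop i] with k hk
      rw [Function.update_of_ne (by omega)]
    have h2 := h1.eventually (isOpen_interior.mem_nhds hx)
    obtain ⟨k, hk⟩ := h2.exists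
    obtain ⟨a, ha⟩ := interior_subset hx
    obtain ⟨b, hb⟩ := interior_subset hk
    have h3 : Tail (φ a) (φ b) := by
      refine ⟨k + 1, k + 1, fun i => ?_⟩
      rw [ha, hb, Function.update_of_ne (by omega)]
    have h4 := hφt a b h3
    rw [h4, hb] at ha
    have := congrFun ha k
    simp at this
  have hT : ∀ j n, ∃ T : (ℕ → Bool) ≃ₜ (ℕ → Bool), (∀ c ∈ C j, T (ψ c) = ψ (s n c)) ∧
      ∀ y, y ∉ ψ '' C j → Tail y (T y) := by
    intro j n
    have hgi : Function.Injective (fun x => ψ (s n x)) := by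
      intro x y h
      have := hψi h
      rw [← hinv n x, this, hinv]
    obtain ⟨θ, h1, h2, h3, h4⟩ := exists_theta (C j) (hCc j) ψ (fun x => ψ (s n x))
      hψc.continuousOn (hψc.comp (hsc n)).continuousOn hψi.injOn hgi.injOn
    have hA : IsClosed (ψ '' C j) := ((hCc j).image hψc).isClosed
    have hB : IsClosed ((fun x => ψ (s n x)) '' C j) :=
      ((hCc j).image (hψc.comp (hsc n))).isClosed
    obtain ⟨T, hT1, hT2⟩ := cantor_ext (ψ '' C j) ((fun x => ψ (s n x)) '' C j) hA hB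
      (by
        apply subset_eq_empty (interior_mono _) hrange
        rintro _ ⟨c, hc, rfl⟩
        exact ⟨_, rfl⟩)
      (by
        apply subset_eq_empty (interior_mono _) hrange
        rintro _ ⟨c, hc, rfl⟩
        exact ⟨_, rfl⟩) θ h2 h3 h4
    refine ⟨T, ?_, hT2⟩
    intro c hc
    rw [hT1 _ ⟨c, hc, rfl⟩, h1 c hc]
  choose T hT1 hT2 using hT
  let 𝒴 : Set (ℕ → Bool) := {p | ∃ x ∈ Y, Tail p (ψ x)}
  have hψYm : MeasurableSet (ψ '' Y) := hYm.image_of_measurable_injOn hψm hψi.injOn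
  have h𝒴eq : 𝒴 = ⋃ k, V k ⁻¹' (ψ '' Y) := by
    ext p
    simp only [𝒴, mem_ofPred_eq, mem_iUnion, mem_preimage, mem_image]
    constructor
    · rintro ⟨x, hx, h⟩
      obtain ⟨k, hk⟩ := (hV _ _).1 h
      exact ⟨k, x, hx, hk.symm⟩
    · rintro ⟨k, x, hx, h⟩
      exact ⟨x, hx, (hV _ _).2 ⟨k, h.symm⟩⟩
  have h𝒴m : MeasurableSet 𝒴 := by
    rw [h𝒴eq]
    exact MeasurableSet.iUnion fun k => (V k).continuous.measurable hψYm
  have hψ' : ∀ x ∈ Y, ∀ y ∈ Y, Tail (ψ x) (ψ y) → E x y := fun x _ y _ h => by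
    rw [hψt x y h]; exact hE.refl y
  have hRel := Rel.equivalence tail_equiv hE ψ Y hψ'
  have hYsb : StandardBorelSpace Y := hYm.standardBorel
  have h𝒴sb : StandardBorelSpace 𝒴 := h𝒴m.standardBorel
  -- the map back
  have hg : ∃ g : 𝒴 → Y, Measurable g ∧ Function.Injective g ∧
      ∀ p, Rel Tail E ψ Y (ψ (g p)) p := by
    rcases isEmpty_or_nonempty X with hX | hX
    · refine ⟨fun p => isEmptyElim p.2.choose, ?_, ?_, ?_⟩
      · have : IsEmpty 𝒴 := ⟨fun p => isEmptyElim p.2.choose⟩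
        exact measurable_of_empty _
      · intro p; exact isEmptyElim p.2.choose
      · intro p; exact isEmptyElim p.2.choose
    · have hψe : MeasurableEmbedding ψ := hψm.measurableEmbedding hψi
      obtain ⟨ρ, hρm, hρ⟩ := hψe.exists_measurable_extend measurable_id (fun _ => hX)
      have hρ' : ∀ x, ρ (ψ x) = x := fun x => congrFun hρ x
      have hex : ∀ p : 𝒴, ∃ k, V k p ∈ ψ '' Y := by
        intro p
        have : (p : ℕ → Bool) ∈ ⋃ k, V k ⁻¹' (ψ '' Y) := h𝒴eq ▸ p.2
        exact mem_iUnion.1 this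
      let N : 𝒴 → ℕ := fun p => Nat.find (hex p)
      have hN : Measurable N := measurable_find hex (fun k =>
        ((V k).continuous.measurable.comp measurable_subtype_coe) hψYm)
      have hNs : ∀ p : 𝒴, V (N p) p ∈ ψ '' Y := fun p => Nat.find_spec (hex p)
      have hρN : ∀ p : 𝒴, ρ (V (N p) p) ∈ Y ∧ ψ (ρ (V (N p) p)) = V (N p) p := by
        intro p
        obtain ⟨x, hx, hx'⟩ := hNs p
        rw [← hx', hρ']
        exact ⟨hx, rfl⟩
      refine ⟨fun p => ⟨st (ρ (V (N p) p)) (N p), hYE _ _ (hstE _ _) (hρN p).1⟩, ?_, ?_, ?_⟩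
      · apply Measurable.subtype_mk
        refine meas_index (fun n (p : 𝒴) => st (ρ (V n p)) n) ?_ N hN
        intro n
        exact (hst n).comp (hρm.comp ((V n).continuous.measurable.comp measurable_subtype_coe))
      · intro p q hpq
        have h1 := hsti _ _ _ _ (congrArg Subtype.val hpq)
        have h2 : ψ (ρ (V (N p) p)) = ψ (ρ (V (N q) q)) := by rw [h1.1]
        rw [(hρN p).2, (hρN q).2, h1.2] at h2
        exact Subtype.ext ((V (N q)).injective h2)
      · intro p
        refine Or.inr ⟨st (ρ (V (N p) p)) (N p), hYE _ _ (hstE _ _) (hρN p).1,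
          ρ (V (N p) p), (hρN p).1, tail_equiv.refl _, hE.symm (hstE _ _), ?_⟩
        rw [(hρN p).2]
        exact tail_equiv.symm ((hV _ _).2 ⟨N p, rfl⟩)
  obtain ⟨g, hgm, hgi, hgR⟩ := hg
  let f : Y → 𝒴 := fun x => ⟨ψ x, x, x.2, tail_equiv.refl _⟩
  have hfm : Measurable f := (hψm.comp measurable_subtype_coe).subtype_mk
  obtain ⟨h1, -, hh1⟩ := cantor_bernstein (fun a b : Y => E a b)
    (fun p q : 𝒴 => Rel Tail E ψ Y p q)
    ⟨fun p => hRel.refl _, fun h => hRel.symm h, fun h h' => hRel.trans h h'⟩ f g hfm hgm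
    (fun x y h => Subtype.ext (hψi (congrArg Subtype.val h))) hgi
    (fun x x' => (Rel.iff_image tail_equiv hE ψ Y hψ' x.2 x'.2).symm) (fun p => hgR p)
  refine partReal_of_core tail_equiv V hV hE s hsE ψ Y hYE hψ' C
    (fun x hx => (hmem x).1 hx) hCY T hT1 hT2 μ hYm hYμ h𝒴m h1 hh1 ?_
  obtain ⟨c, hc1, hc2, hc3⟩ := tail_reduction
  refine ⟨⟨fun w => c w, hc1.comp measurable_subtype_coe, fun w w' h => Subtype.ext (hc2 h),
    fun w w' => hc3 _ _⟩, ?_⟩
  have hst' : ∀ (w : (𝒴ᶜ : Set (ℕ → Bool))) (n : ℕ), pre n w ∈ 𝒴ᶜ := by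
    rintro w n ⟨x, hx, h⟩
    exact w.2 ⟨x, hx, tail_equiv.trans (pre_tail n w) h⟩
  refine ⟨fun w n => ⟨pre n w, hst' w n⟩, ?_, ?_, ?_⟩
  · intro n
    exact ((pre_measurable n).comp measurable_subtype_coe).subtype_mk
  · intro w n
    exact pre_tail n w
  · intro w w' n n' h
    obtain ⟨h1, h2⟩ := pre_inj (congrArg Subtype.val h)
    exact ⟨Subtype.ext h1, h2⟩

end Pool.Agent.TH722.CR
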