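import Mathlib
import Pool.Agent.TH722.CR.CompPart

set_option autoImplicit false

namespace Pool.Agent.TH722.CR

open Set MeasureTheory TopologicalSpace

/-- sequences starting with `1^i 0` -/
def Block (i : ℕ) : Set (ℕ → Bool) := {y | (∀ k, k < i → y k = true) ∧ y i = false}

/-- remove the first `i + 1` digits -/
def dec (i : ℕ) (y : ℕ → Bool) : ℕ → Bool := fun k => y (i + 1 + k)

theorem dec_continuous (i : ℕ) : Continuous (dec i) :=
  continuous_pi fun k => continuous_apply _

theorem pre_continuous (i : ℕ) : Continuous (pre i) := by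
  refine continuous_pi fun k => ?_
  unfold pre
  by_cases h1 : k < i
  · simp only [h1, if_true]; exact continuous_const
  · by_cases h2 : k = i
    · simp only [h2, if_true, if_false, lt_irrefl]; exact continuous_const
    · simp only [h1, h2, if_false]; exact continuous_apply _

theorem isClopen_block (i : ℕ) : IsClopen (Block i) := by
  have h1 : Block i = (⋂ k : Fin i, {y : ℕ → Bool | y k = true}) ∩ {y | y i = false} := by
    ext y
    simp only [Block, mem_ofPred_eq, mem_inter_iff, mem_iInter]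
    constructor
    · rintro ⟨h1, h2⟩
      exact ⟨fun k => h1 k k.2, h2⟩
    · rintro ⟨h1, h2⟩
      exact ⟨fun k hk => h1 ⟨k, hk⟩, h2⟩
  rw [h1]
  have h2 : ∀ (k : ℕ) (b : Bool), IsClopen {y : ℕ → Bool | y k = b} := fun k b =>
    (isClopen_discrete {b}).preimage (continuous_apply k)
  exact (isClopen_iInter_of_finite fun k => h2 _ _).inter (h2 _ _)

theorem pre_mem_block (i : ℕ) (x : ℕ → Bool) : pre i x ∈ Block i := by
  constructor
  · intro k hk; simp [pre, hk]
  · simp [pre]

theorem dec_pre (i : ℕ) (x : ℕ → Bool) : dec i (pre i x) = x := by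
  ext k
  have h1 : ¬ i + 1 + k < i := by omega
  have h2 : ¬ i + 1 + k = i := by omega
  simp only [dec, pre, h1, h2, if_false]
  congr 1; omega

theorem pre_dec (i : ℕ) (y : ℕ → Bool) (hy : y ∈ Block i) : pre i (dec i y) = y := by
  ext k
  unfold pre dec
  by_cases h1 : k < i
  · simp only [h1, if_true]; exact (hy.1 k h1).symm
  · by_cases h2 : k = i
    · simp only [h2, if_true, if_false, lt_irrefl]; exact hy.2.symm
    · simp only [h1, h2, if_false]
      congr 1; omega

theorem mem_block_or (y : ℕ → Bool) : y = (fun _ => true) ∨ ∃ i, y ∈ Block i := by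
  classical
  by_cases h : ∃ i, y i = false
  · right
    refine ⟨Nat.find h, ?_, Nat.find_spec h⟩
    intro k hk
    have := Nat.find_min h hk
    simpa using this
  · left
    push Not at h
    ext i
    simpa using h i

theorem block_disj {i j : ℕ} {y : ℕ → Bool} (hi : y ∈ Block i) (hj : y ∈ Block j) : i = j := by
  rcases lt_trichotomy i j with h | h | h
  · have := hj.1 i h
    rw [hi.2] at this; cases this
  · exact h
  · have := hi.1 j h
    rw [hj.2] at this; cases this

theorem one_notMem_block (i : ℕ) : (fun _ => true : ℕ → Bool) ∉ Block i := by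
  intro h; cases h.2

/-- the compact parameter space -/
def Zst (P : ℕ → Set (ℕ → Bool)) : Set (ℕ → Bool) := {fun _ => true} ∪ ⋃ i, pre i '' P i

theorem isClosed_zst (P : ℕ → Set (ℕ → Bool)) (hP : ∀ i, IsClosed (P i)) :
    IsClosed (Zst P) := by
  rw [← isOpen_compl_iff]
  have : (Zst P)ᶜ = ⋃ i, (Block i ∩ dec i ⁻¹' (P i)ᶜ) := by
    ext y
    simp only [Zst, mem_compl_iff, mem_union, mem_singleton_iff, mem_iUnion, mem_image,
      mem_inter_iff, mem_preimage, not_or, not_exists]
    constructor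
    · rintro ⟨h1, h2⟩
      rcases mem_block_or y with h | ⟨i, hi⟩
      · exact absurd h h1
      · exact ⟨i, hi, fun hd => h2 i _ ⟨hd, pre_dec i y hi⟩⟩
    · rintro ⟨i, hi, hd⟩
      refine ⟨fun h => one_notMem_block i (h ▸ hi), ?_⟩
      rintro j x ⟨hx, rfl⟩
      have := block_disj hi (pre_mem_block j x)
      subst this
      rw [dec_pre] at hd
      exact hd hx
  rw [this]
  exact isOpen_iUnion fun i => (isClopen_block i).isOpen.inter
    ((hP i).isOpen_compl.preimage (dec_continuous i))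

open Classical in
/-- the encoding -/
noncomputable def Enc (P : ℕ → Set (ℕ → Bool)) (w : ℕ → Bool) : ℕ → Bool :=
  if h : ∃ i, w ∈ P i then pre (Nat.find h) w else fun _ => true

theorem enc_of_mem (P : ℕ → Set (ℕ → Bool)) (hd : ∀ i j, i ≠ j → Disjoint (P i) (P j)) (i : ℕ)
    (w : ℕ → Bool) (hw : w ∈ P i) : Enc P w = pre i w := by
  classical
  have h : ∃ i, w ∈ P i := ⟨i, hw⟩
  unfold Enc
  rw [dif_pos h]
  congr 1
  by_contra hne
  exact (Set.disjoint_left.1 (hd _ _ hne)) (Nat.find_spec h) hw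

theorem enc_of_notMem (P : ℕ → Set (ℕ → Bool)) (w : ℕ → Bool) (hw : ¬ ∃ i, w ∈ P i) :
    Enc P w = fun _ => true := by
  unfold Enc
  rw [dif_neg hw]

theorem enc_mem (P : ℕ → Set (ℕ → Bool)) (hd : ∀ i j, i ≠ j → Disjoint (P i) (P j))
    (w : ℕ → Bool) : Enc P w ∈ Zst P := by
  by_cases h : ∃ i, w ∈ P i
  · obtain ⟨i, hi⟩ := h
    rw [enc_of_mem P hd i w hi]
    exact Or.inr (mem_iUnion.2 ⟨i, w, hi, rfl⟩)
  · rw [enc_of_notMem P w h]
    exact Or.inl rfl

theorem enc_injOn (P : ℕ → Set (ℕ → Bool)) (hd : ∀ i j, i ≠ j → Disjoint (P i) (P j))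
    (ζ : ℕ → Bool) (hζ : ∀ i, ζ ∉ P i) : InjOn (Enc P) ({ζ} ∪ ⋃ i, P i) := by
  have hζ' : Enc P ζ = fun _ => true := enc_of_notMem P ζ (by push Not; exact hζ)
  have hne : ∀ i w, w ∈ P i → Enc P w ≠ fun _ => true := by
    intro i w hw h
    rw [enc_of_mem P hd i w hw] at h
    exact one_notMem_block i (h ▸ pre_mem_block i w)
  rintro x (hx | hx) y (hy | hy) h
  · rw [mem_singleton_iff.1 hx, mem_singleton_iff.1 hy]
  · obtain ⟨i, hi⟩ := mem_iUnion.1 hy
    rw [mem_singleton_iff.1 hx, hζ'] at h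
    exact absurd h.symm (hne i y hi)
  · obtain ⟨i, hi⟩ := mem_iUnion.1 hx
    rw [mem_singleton_iff.1 hy, hζ'] at h
    exact absurd h (hne i x hi)
  · obtain ⟨i, hi⟩ := mem_iUnion.1 hx
    obtain ⟨j, hj⟩ := mem_iUnion.1 hy
    rw [enc_of_mem P hd i x hi, enc_of_mem P hd j y hj] at h
    exact (pre_inj h).1

theorem enc_surj (P : ℕ → Set (ℕ → Bool)) (hd : ∀ i j, i ≠ j → Disjoint (P i) (P j))
    (ζ : ℕ → Bool) (hζ : ∀ i, ζ ∉ P i) (q : ℕ → Bool) (hq : q ∈ Zst P) :
    ∃ w ∈ ({ζ} ∪ ⋃ i, P i : Set (ℕ → Bool)), Enc P w = q := by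
  rcases hq with h | h
  · refine ⟨ζ, Or.inl rfl, ?_⟩
    rw [mem_singleton_iff.1 h]
    exact enc_of_notMem P ζ (by push Not; exact hζ)
  · obtain ⟨i, w, hw, rfl⟩ := mem_iUnion.1 h
    exact ⟨w, Or.inr (mem_iUnion.2 ⟨i, hw⟩), enc_of_mem P hd i w hw⟩

theorem enc_measurable (P : ℕ → Set (ℕ → Bool)) (hP : ∀ i, MeasurableSet (P i)) :
    Measurable (Enc P) := by
  classical
  let Q : ℕ → Set (ℕ → Bool) := fun i => P i ∪ (⋃ i, P i)ᶜ
  have hex : ∀ w, ∃ i, w ∈ Q i := by
    intro w
    by_cases h : w ∈ ⋃ i, P i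
    · obtain ⟨i, hi⟩ := mem_iUnion.1 h
      exact ⟨i, Or.inl hi⟩
    · exact ⟨0, Or.inr h⟩
  have hN : Measurable (fun w => Nat.find (hex w)) :=
    measurable_find hex (fun i => (hP i).union (MeasurableSet.iUnion hP).compl)
  have : Enc P = (⋃ i, P i).piecewise (fun w => pre (Nat.find (hex w)) w) (fun _ _ => true) := by
    ext1 w
    by_cases h : w ∈ ⋃ i, P i
    · rw [piecewise_eq_of_mem _ _ _ h]
      have h' : ∃ i, w ∈ P i := mem_iUnion.1 h
      unfold Enc
      rw [dif_pos h']
      congr 1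
      apply Nat.find_congr'
      intro n
      constructor
      · exact Or.inl
      · rintro (hn | hn)
        · exact hn
        · exact absurd h hn
    · rw [piecewise_eq_of_notMem _ _ _ h]
      exact enc_of_notMem P w (fun h' => h (mem_iUnion.2 h'))
  rw [this]
  exact Measurable.piecewise (MeasurableSet.iUnion hP)
    (meas_index (fun n w => pre n w) pre_measurable _ hN) measurable_const

end Pool.Agent.TH722.CR
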