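import Mathlib

set_option autoImplicit false

namespace Pool.Agent.TH722.CR

open Set MeasureTheory TopologicalSpace

/-- disjoint compact pieces exhausting a measure, adapted to an increasing sequence -/
theorem exists_pieces {Z : Type} [TopologicalSpace Z] [PolishSpace Z] [MeasurableSpace Z]
    [BorelSpace Z] (η : Measure Z) [IsProbabilityMeasure η] (G : ℕ → Set Z)
    (hG : ∀ m, MeasurableSet (G m)) (hmono : Monotone G) (hGη : η (⋃ m, G m)ᶜ = 0) :
    ∃ (ζ : Z) (P : ℕ → Set Z), (∃ m, ζ ∈ G m) ∧ (∀ i, IsCompact (P i)) ∧ (∀ i, ζ ∉ P i) ∧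
      (∀ i j, i ≠ j → Disjoint (P i) (P j)) ∧ (∀ i, ∃ m, P i ⊆ G m) ∧
      η ({ζ} ∪ ⋃ i, P i)ᶜ = 0 := by
  classical
  have hne : (⋃ m, G m).Nonempty := by
    by_contra h
    rw [not_nonempty_iff_eq_empty] at h
    rw [h, compl_empty, measure_univ] at hGη
    exact one_ne_zero hGη
  obtain ⟨ζ, hζ⟩ := hne
  have hUm : MeasurableSet (⋃ m, G m) := MeasurableSet.iUnion hG
  have step : ∀ (F : Set Z) (i : ℕ), MeasurableSet F → ∃ (C : Set Z) (m : ℕ), IsCompact C ∧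
      C ⊆ G m \ F ∧ η (((⋃ m, G m) \ F) \ C) ≤ ((i + 1 : ℕ) : ENNReal)⁻¹ := by
    intro F i hF
    have hε : ((i + 1 : ℕ) : ENNReal)⁻¹ ≠ 0 := ENNReal.inv_ne_zero.2 (ENNReal.natCast_ne_top _)
    have h1 : Filter.Tendsto (fun m => η (((⋃ m, G m) \ F) \ G m)) Filter.atTop
        (nhds (η (⋂ m, ((⋃ m, G m) \ F) \ G m))) := by
      apply tendsto_measure_iInter_atTop
      · exact fun m => ((hUm.diff hF).diff (hG m)).nullMeasurableSet
      · intro m m' h x hx
        exact ⟨hx.1, fun hx' => hx.2 (hmono h hx')⟩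
      · exact ⟨0, measure_ne_top _ _⟩
    have h2 : (⋂ m, ((⋃ m, G m) \ F) \ G m) = ∅ := by
      ext x
      simp only [mem_iInter, mem_sdiff, mem_iUnion, mem_empty_iff_false, iff_false, not_forall]
      by_cases hx : ∃ m, x ∈ G m
      · obtain ⟨m, hm⟩ := hx
        exact ⟨m, fun h => h.2 hm⟩
      · exact ⟨0, fun h => hx h.1.1⟩
    rw [h2, measure_empty] at h1
    obtain ⟨m, hm⟩ := (h1.eventually (gt_mem_nhds (ENNReal.half_pos hε))).exists
    obtain ⟨C, hC1, hC2, hC3⟩ := ((hG m).diff hF).exists_isCompact_sdiff_lt (μ := η)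
      (measure_ne_top _ _) (ENNReal.half_pos hε).ne'
    refine ⟨C, m, hC2, hC1, ?_⟩
    have h3 : ((⋃ m, G m) \ F) \ C ⊆ (((⋃ m, G m) \ F) \ G m) ∪ ((G m \ F) \ C) := by
      rintro x ⟨⟨h1, h2⟩, h3⟩
      by_cases h : x ∈ G m
      · exact Or.inr ⟨⟨h, h2⟩, h3⟩
      · exact Or.inl ⟨⟨h1, h2⟩, h⟩
    calc η (((⋃ m, G m) \ F) \ C) ≤ η ((((⋃ m, G m) \ F) \ G m) ∪ ((G m \ F) \ C)) :=
          measure_mono h3
      _ ≤ η (((⋃ m, G m) \ F) \ G m) + η ((G m \ F) \ C) := measure_union_le _ _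
      _ ≤ ((i + 1 : ℕ) : ENNReal)⁻¹ / 2 + ((i + 1 : ℕ) : ENNReal)⁻¹ / 2 := add_le_add hm.le hC3.le
      _ = _ := ENNReal.add_halves _
  choose C m hC1 hC2 hC3 using step
  -- the recursion
  let F : ℕ → {F : Set Z // MeasurableSet F} := fun i => Nat.rec
    ⟨{ζ}, measurableSet_singleton ζ⟩ (fun i F => ⟨F.1 ∪ C F.1 i F.2,
      F.2.union (hC1 F.1 i F.2).measurableSet⟩) i
  let P : ℕ → Set Z := fun i => C (F i).1 i (F i).2
  have hFs : ∀ i, (F (i + 1)).1 = (F i).1 ∪ P i := fun i => rfl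
  have hF0 : (F 0).1 = {ζ} := rfl
  have hFle : ∀ i j, i ≤ j → (F i).1 ⊆ (F j).1 := by
    intro i j hij
    induction hij with
    | refl => exact Subset.rfl
    | step _ ih => rw [hFs]; exact ih.trans subset_union_left
  have hPF : ∀ i j, i < j → P i ⊆ (F j).1 := by
    intro i j hij
    exact (subset_union_right.trans (hFs i).symm.subset).trans (hFle (i + 1) j hij)
  have hPdisj : ∀ i, Disjoint (P i) (F i).1 := by
    intro i
    rw [Set.disjoint_left]
    intro x hx hx'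
    exact (hC2 _ _ _ hx).2 hx'
  refine ⟨ζ, P, mem_iUnion.1 hζ, fun i => hC1 _ _ _, ?_, ?_, ?_, ?_⟩
  · intro i h
    have h1 : ζ ∈ (F i).1 := hFle 0 i (Nat.zero_le _) (by rw [hF0]; rfl)
    exact (Set.disjoint_left.1 (hPdisj i)) h h1
  · have key : ∀ i j, i < j → Disjoint (P i) (P j) := by
      intro i j hij
      exact ((hPdisj j).mono_right (hPF i j hij)).symm
    intro i j hij
    rcases lt_or_gt_of_ne hij with h | h
    · exact key i j h
    · exact (key j i h).symm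
  · intro i
    exact ⟨m (F i).1 i (F i).2, (hC2 _ _ _).trans sdiff_subset⟩
  · have hsub : ∀ i, (F i).1 ⊆ {ζ} ∪ ⋃ i, P i := by
      intro i
      induction i with
      | zero => rw [hF0]; exact subset_union_left
      | succ i ih =>
        rw [hFs]
        exact union_subset ih ((subset_iUnion P i).trans subset_union_right)
    have h1 : ∀ i : ℕ, η ((⋃ m, G m) \ ({ζ} ∪ ⋃ i, P i)) ≤ ((i + 1 : ℕ) : ENNReal)⁻¹ := by
      intro i
      refine (measure_mono ?_).trans (hC3 (F i).1 i (F i).2)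
      rintro x ⟨hx, hx'⟩
      exact ⟨⟨hx, fun h => hx' (hsub i h)⟩, fun h => hx' (Or.inr (mem_iUnion.2 ⟨i, h⟩))⟩
    have h2 : Filter.Tendsto (fun j : ℕ => (((j + 1 : ℕ) : ENNReal))⁻¹) Filter.atTop
        (nhds 0) := ENNReal.tendsto_inv_nat_nhds_zero.comp (Filter.tendsto_add_atTop_nat 1)
    have h3 : η ((⋃ m, G m) \ ({ζ} ∪ ⋃ i, P i)) = 0 :=
      le_antisymm (ge_of_tendsto' h2 h1) bot_le
    refine measure_mono_null ?_ (measure_union_null hGη h3)
    intro x hx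
    by_cases h : x ∈ ⋃ m, G m
    · exact Or.inr ⟨h, hx⟩
    · exact Or.inl h

end Pool.Agent.TH722.CR
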