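import Mathlib

set_option autoImplicit false

namespace Pool.Agent.TH722.CR

open Set MeasureTheory TopologicalSpace

variable {X Z Ω : Type} [MeasurableSpace X] [StandardBorelSpace X] [MeasurableSpace Z]
  [StandardBorelSpace Z] [MeasurableSpace Ω] [StandardBorelSpace Ω]

theorem lintegral_slice (ν : Measure X) [IsProbabilityMeasure ν] (η : Measure Z)
    [IsProbabilityMeasure η] (lam : Measure Ω) [IsProbabilityMeasure lam] (Φ : X → Z × Ω)
    (hΦ : Measurable Φ) (hprod : ν.map Φ = η.prod lam) (X2 : Set X) (hX2 : MeasurableSet X2)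
    (hX2ν : ν X2ᶜ = 0) (hinj : InjOn Φ X2) (D : Set X) (hD : MeasurableSet D) (hDX : D ⊆ X2)
    (W : Set Z) (hW : MeasurableSet W) :
    ∫⁻ ζ in W, lam {x | (ζ, x) ∈ Φ '' D} ∂η = ν (D ∩ (fun x => (Φ x).1) ⁻¹' W) := by
  have hΦD : MeasurableSet (Φ '' D) := hD.image_of_measurable_injOn hΦ (hinj.mono hDX)
  have hW' : MeasurableSet (Prod.fst ⁻¹' W : Set (Z × Ω)) := measurable_fst hW
  have h1 : (η.prod lam) (Φ '' D ∩ Prod.fst ⁻¹' W) = ∫⁻ ζ in W, lam {x | (ζ, x) ∈ Φ '' D} ∂η := by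
    rw [Measure.prod_apply (hΦD.inter hW'), ← lintegral_indicator hW]
    congr 1
    ext ζ
    by_cases hζ : ζ ∈ W
    · rw [indicator_of_mem hζ]
      congr 1
      ext x
      simp [hζ]
    · rw [indicator_of_notMem hζ]
      have : (Prod.mk ζ ⁻¹' (Φ '' D ∩ Prod.fst ⁻¹' W) : Set Ω) = ∅ := by
        ext x
        simp [hζ]
      rw [this, measure_empty]
  rw [← h1, ← hprod, Measure.map_apply hΦ (hΦD.inter hW')]
  apply le_antisymm
  · have h2 : Φ ⁻¹' (Φ '' D ∩ Prod.fst ⁻¹' W) ⊆ (D ∩ (fun x => (Φ x).1) ⁻¹' W) ∪ X2ᶜ := by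
      rintro x ⟨⟨d, hd, hdx⟩, hx⟩
      by_cases hx2 : x ∈ X2
      · left
        have : d = x := hinj (hDX hd) hx2 hdx
        exact ⟨this ▸ hd, hx⟩
      · exact Or.inr hx2
    refine (measure_mono h2).trans ((measure_union_le _ _).trans ?_)
    rw [hX2ν, add_zero]
  · apply measure_mono
    rintro x ⟨hx, hx'⟩
    exact ⟨⟨x, hx, rfl⟩, hx'⟩

theorem measurable_slice (lam : Measure Ω) [IsProbabilityMeasure lam] (S : Set (Z × Ω))
    (hS : MeasurableSet S) : Measurable fun ζ => lam {x | (ζ, x) ∈ S} :=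
  measurable_measure_prodMk_left hS

theorem slice_ae_eq (ν : Measure X) [IsProbabilityMeasure ν] (η : Measure Z)
    [IsProbabilityMeasure η] (lam : Measure Ω) [IsProbabilityMeasure lam] (Φ : X → Z × Ω)
    (hΦ : Measurable Φ) (hprod : ν.map Φ = η.prod lam) (X2 : Set X) (hX2 : MeasurableSet X2)
    (hX2ν : ν X2ᶜ = 0) (hinj : InjOn Φ X2) (g : X → X) (hg : Measurable g)
    (hgg : ∀ x, g (g x) = x) (hgν : ν.map g = ν) (hgΦ : ∀ x, (Φ (g x)).1 = (Φ x).1)
    (hgX : ∀ x ∈ X2, g x ∈ X2) (D : Set X) (hD : MeasurableSet D) (hDX : D ⊆ X2) :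
    ∀ᵐ ζ ∂η, lam {x | (ζ, x) ∈ Φ '' D} = lam {x | (ζ, x) ∈ Φ '' (g '' D)} := by
  have hgD : g '' D = g ⁻¹' D := by
    ext x
    constructor
    · rintro ⟨y, hy, rfl⟩
      rw [mem_preimage, hgg]; exact hy
    · intro hx
      exact ⟨g x, hx, hgg x⟩
  have hgDm : MeasurableSet (g '' D) := by rw [hgD]; exact hg hD
  have hgDX : g '' D ⊆ X2 := by
    rintro _ ⟨y, hy, rfl⟩
    exact hgX y (hDX hy)
  apply ae_eq_of_forall_setLIntegral_eq_of_sigmaFinite
  · exact measurable_slice lam _ (hD.image_of_measurable_injOn hΦ (hinj.mono hDX))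
  · exact measurable_slice lam _ (hgDm.image_of_measurable_injOn hΦ (hinj.mono hgDX))
  · intro W hW _
    rw [lintegral_slice ν η lam Φ hΦ hprod X2 hX2 hX2ν hinj D hD hDX W hW,
      lintegral_slice ν η lam Φ hΦ hprod X2 hX2 hX2ν hinj (g '' D) hgDm hgDX W hW]
    have hW' : MeasurableSet ((fun x => (Φ x).1) ⁻¹' W) := (measurable_fst.comp hΦ) hW
    have h1 : g '' D ∩ (fun x => (Φ x).1) ⁻¹' W = g ⁻¹' (D ∩ (fun x => (Φ x).1) ⁻¹' W) := by
      rw [hgD]
      ext x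
      simp only [mem_inter_iff, mem_preimage, hgΦ]
    rw [h1, ← Measure.map_apply hg (hD.inter hW'), hgν]

end Pool.Agent.TH722.CR
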