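import Mathlib
import Pool.Agent.TH722.CR.AfExt
import Pool.Agent.TH722.CR.Enc
import Pool.Agent.TH722.CR.Slice
import Pool.Agent.TH722.CR.Pieces

set_option autoImplicit false

namespace Pool.Agent.TH722.CR

open Set MeasureTheory TopologicalSpace Filter

/-- modification of finitely many Dye coordinates -/
theorem dye_mod {X : Type} {E : X → X → Prop} (hE : Equivalence E) (N : ℕ → ℕ) (X1 : Set X)
    (ω : X → (k : ℕ) → Fin (N k))
    (hflip : ∀ x ∈ X1, ∀ (k : ℕ) (i : Fin (N k)),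
      ∃ y ∈ X1, E x y ∧ ω y = Function.update (ω x) k i) (k : ℕ) :
    ∀ x ∈ X1, ∀ x' : (k : ℕ) → Fin (N k), (∀ i, k ≤ i → ω x i = x' i) →
      ∃ y ∈ X1, E x y ∧ ω y = x' := by
  induction k with
  | zero =>
    intro x hx x' h
    exact ⟨x, hx, hE.refl x, funext fun i => h i (Nat.zero_le i)⟩
  | succ k ih =>
    intro x hx x' h
    obtain ⟨y, hy, hxy, hy'⟩ := hflip x hx k (x' k)
    obtain ⟨y', hy1, hy2, hy3⟩ := ih y hy x' (by
      intro i hi
      rw [hy']
      rcases eq_or_lt_of_le hi with h1 | h1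
      · subst h1; simp
      · rw [Function.update_of_ne (by omega)]
        exact h i (by omega))
    exact ⟨y', hy1, hE.trans hxy hy2, hy3⟩

section lam

variable (N : ℕ → ℕ) (hN : ∀ k, 2 ≤ N k) (lam : Measure (∀ k, Fin (N k)))
  (hlam : ∀ (k : ℕ) (u : ∀ k, Fin (N k)),
      lam {x | ∀ i, i < k → x i = u i} = (∏ i ∈ Finset.range k, (N i : ENNReal))⁻¹)

include hN hlam in
theorem lam_singleton (x : ∀ k, Fin (N k)) : lam {x} = 0 := by
  have h1 : ∀ k : ℕ, lam {x} ≤ (2⁻¹ : ENNReal) ^ k := by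
    intro k
    refine (measure_mono (t := {x' | ∀ i, i < k → x' i = x i}) ?_).trans ?_
    · rintro _ rfl
      exact fun i _ => rfl
    · rw [hlam k x, ← ENNReal.inv_pow]
      apply ENNReal.inv_le_inv.2
      calc (2 : ENNReal) ^ k = ∏ i ∈ Finset.range k, (2 : ENNReal) := by simp
        _ ≤ ∏ i ∈ Finset.range k, (N i : ENNReal) := by
          apply Finset.prod_le_prod'
          intro i _
          exact_mod_cast hN i
  have h2 : Tendsto (fun k : ℕ => (2⁻¹ : ENNReal) ^ k) atTop (nhds 0) :=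
    ENNReal.tendsto_pow_atTop_nhds_zero_of_lt_one (by simp)
  exact le_antisymm (ge_of_tendsto' h2 h1) bot_le

theorem af_class_countable (e0 : ∀ k, Fin (N k)) :
    {x : ∀ k, Fin (N k) | ∃ k, ∀ i, k ≤ i → x i = e0 i}.Countable := by
  obtain ⟨V, hV⟩ := af_gen (Z := Unit) N
  have h1 : {x : ∀ k, Fin (N k) | ∃ k, ∀ i, k ≤ i → x i = e0 i} ⊆
      range (fun k => (V k ((), e0)).2) := by
    rintro x ⟨k, hk⟩
    obtain ⟨m, hm⟩ := (hV ((), e0) ((), x)).1 ⟨rfl, k, fun i hi => (hk i hi).symm⟩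
    exact ⟨m, by simp only [hm]⟩
  exact (countable_range _).mono h1

theorem af_class_dense (e0 : ∀ k, Fin (N k)) (O : Set (∀ k, Fin (N k))) (hO : IsOpen O)
    (hne : O.Nonempty) : ∃ x ∈ O, ∃ k, ∀ i, k ≤ i → x i = e0 i := by
  classical
  obtain ⟨x, hx⟩ := hne
  have h1 : Tendsto (fun (k : ℕ) (i : ℕ) => if i < k then x i else e0 i) atTop (nhds x) := by
    rw [tendsto_pi_nhds]
    intro i
    refine tendsto_const_nhds.congr' ?_
    filter_upwards [eventually_gt_atTop i] with k hk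
    rw [if_pos hk]
  obtain ⟨k, hk⟩ := (h1.eventually (hO.mem_nhds hx)).exists
  refine ⟨_, hk, k, fun i hi => ?_⟩
  rw [if_neg (by omega)]

end lam

/-- the pieces, with the distinguished point as piece number `0` -/
def PP (ζ : ℕ → Bool) (P : ℕ → Set (ℕ → Bool)) : ℕ → Set (ℕ → Bool)
  | 0 => {ζ}
  | i + 1 => P i

theorem exists_good {X : Type} [MeasurableSpace X] [StandardBorelSpace X] [TopologicalSpace X]
    [PolishSpace X] [BorelSpace X] (s : ℕ → X → X)
    (hs : ∀ n, Measurable (s n)) (hinv : ∀ n x, s n (s n x) = x)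
    (ν : Measure X) [IsProbabilityMeasure ν] (hν : ∀ n, ν.map (s n) = ν)
    (N : ℕ → ℕ) (z : X → (ℕ → Bool)) (ω : X → (k : ℕ) → Fin (N k))
    (hz : Measurable z) (hω : Measurable ω) (hzs : ∀ n x, z (s n x) = z x)
    (X2 : Set X) (hX2 : MeasurableSet X2) (hX2ν : ν X2ᶜ = 0) (hX2s : ∀ n, ∀ x ∈ X2, s n x ∈ X2)
    (hinj : InjOn (fun x => (z x, ω x)) X2)
    (hprod : ν.map (fun x => (z x, ω x)) = (ν.map z).prod (ν.map ω)) :
    ∃ (C : ℕ → Set X) (ζ : ℕ → Bool) (P : ℕ → Set (ℕ → Bool)),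
      (∀ j, IsCompact (C j)) ∧ (∀ j, C j ⊆ X2) ∧ ν (⋃ j, C j)ᶜ = 0 ∧
      (∀ i, IsCompact (P i)) ∧ (∀ i, ζ ∉ P i) ∧ (∀ i j, i ≠ j → Disjoint (P i) (P j)) ∧
      (ν.map z) ({ζ} ∪ ⋃ i, P i)ᶜ = 0 ∧
      (∀ i, ∀ w ∈ PP ζ P i, ∀ (j n k : ℕ) (v : ∀ i : Fin k, Fin (N i)),
        (ν.map ω) {x | (w, x) ∈ (fun x => (z x, ω x)) '' (C j ∩ {c | ∀ i : Fin k, ω c i = v i})} =
        (ν.map ω) {x | (w, x) ∈ (fun x => (z x, ω x)) ''
          (s n '' (C j ∩ {c | ∀ i : Fin k, ω c i = v i}))}) ∧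
      ∀ i, ∀ ε : ENNReal, 0 < ε → ∃ j, ∀ w ∈ PP ζ P i,
        (ν.map ω) {x | (w, x) ∉ (fun x => (z x, ω x)) '' C j} ≤ ε := by
  classical
  set Φ : X → (ℕ → Bool) × (∀ k, Fin (N k)) := fun x => (z x, ω x) with hΦdef
  have hΦ : Measurable Φ := hz.prodMk hω
  set lam : Measure (∀ k, Fin (N k)) := ν.map ω with hlamdef
  set η : Measure (ℕ → Bool) := ν.map z with hηdef
  have _ : IsProbabilityMeasure lam := Measure.isProbabilityMeasure_map hω.aemeasurable
  have _ : IsProbabilityMeasure η := Measure.isProbabilityMeasure_map hz.aemeasurable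
  have hcomp : ∀ j : ℕ, ∃ C : Set X, IsCompact C ∧ C ⊆ X2 ∧ ν (X2 \ C) < (4⁻¹ : ENNReal) ^ j := by
    intro j
    obtain ⟨C, h1, h2, h3⟩ := hX2.exists_isCompact_sdiff_lt (μ := ν)
      (measure_ne_top _ _) (ε := (4⁻¹ : ENNReal) ^ j) (pow_ne_zero _ (by simp))
    exact ⟨C, h2, h1, h3⟩
  choose C hCc hCX hCν using hcomp
  have hCm : ∀ j, MeasurableSet (C j) := fun j => (hCc j).measurableSet
  have hCν' : ∀ j, ν (C j)ᶜ ≤ (4⁻¹ : ENNReal) ^ j := by
    intro j
    have h1 : (C j)ᶜ ⊆ X2ᶜ ∪ (X2 \ C j) := by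
      intro x hx
      by_cases h : x ∈ X2
      · exact Or.inr ⟨h, hx⟩
      · exact Or.inl h
    refine (measure_mono h1).trans ((measure_union_le _ _).trans ?_)
    rw [hX2ν, zero_add]
    exact (hCν j).le
  have hΦC : ∀ j, MeasurableSet (Φ '' C j) := fun j =>
    (hCm j).image_of_measurable_injOn hΦ (hinj.mono (hCX j))
  -- the bad fibre measure
  let B : ℕ → (ℕ → Bool) → ENNReal := fun j w => lam {x | (w, x) ∉ Φ '' C j}
  have hBm : ∀ j, Measurable (B j) := fun j => measurable_slice lam (Φ '' C j)ᶜ (hΦC j).compl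
  have hBint : ∀ j, ∫⁻ w, B j w ∂η ≤ (4⁻¹ : ENNReal) ^ j := by
    intro j
    have h1 : ∫⁻ w, B j w ∂η = (η.prod lam) (Φ '' C j)ᶜ := by
      rw [Measure.prod_apply (hΦC j).compl]
      rfl
    rw [h1, ← hprod, Measure.map_apply hΦ (hΦC j).compl]
    refine (measure_mono ?_).trans (hCν' j)
    intro x hx hx'
    exact hx ⟨x, hx', rfl⟩
  have hBbad : ∀ j, η {w | (2⁻¹ : ENNReal) ^ j ≤ B j w} ≤ (2⁻¹ : ENNReal) ^ j := by
    intro j
    have h2 : (2⁻¹ : ENNReal) ^ j ≠ 0 := pow_ne_zero _ (by simp)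
    have h3 : (2⁻¹ : ENNReal) ^ j ≠ ⊤ := ENNReal.pow_ne_top (by simp)
    refine (meas_ge_le_lintegral_div (hBm j).aemeasurable h2 h3).trans ?_
    rw [ENNReal.div_le_iff h2 h3]
    refine (hBint j).trans (le_of_eq ?_)
    rw [← mul_pow]
    congr 1
    rw [← ENNReal.mul_inv (by simp) (by simp)]
    norm_num
  have hBae : ∀ᵐ w ∂η, ∀ᶠ j in atTop, w ∉ {w | (2⁻¹ : ENNReal) ^ j ≤ B j w} := by
    apply ae_eventually_notMem
    refine ne_top_of_le_ne_top ?_ (ENNReal.tsum_le_tsum hBbad)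
    rw [ENNReal.tsum_geometric_two]
    simp
  let Dset : ∀ (j k : ℕ), (∀ i : Fin k, Fin (N i)) → Set X := fun j k v =>
    C j ∩ {c | ∀ i : Fin k, ω c i = v i}
  have hDm : ∀ j k v, MeasurableSet (Dset j k v) := by
    intro j k v
    refine (hCm j).inter ?_
    have : {c | ∀ i : Fin k, ω c i = v i} = ⋂ i : Fin k, (fun c => ω c i) ⁻¹' {v i} := by
      ext c; simp
    rw [this]
    exact MeasurableSet.iInter fun i =>
      ((measurable_pi_apply (i : ℕ)).comp hω) (measurableSet_singleton _)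
  have hDX : ∀ j k v, Dset j k v ⊆ X2 := fun j k v => inter_subset_left.trans (hCX j)
  have hsD : ∀ n j k v, s n '' Dset j k v = s n ⁻¹' Dset j k v := by
    intro n j k v
    ext x
    constructor
    · rintro ⟨y, hy, rfl⟩
      rw [mem_preimage, hinv]; exact hy
    · intro hx
      exact ⟨s n x, hx, hinv n x⟩
  let Eq : ∀ (j n k : ℕ), (∀ i : Fin k, Fin (N i)) → Set (ℕ → Bool) := fun j n k v =>
    {w | lam {x | (w, x) ∈ Φ '' Dset j k v} = lam {x | (w, x) ∈ Φ '' (s n '' Dset j k v)}}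
  have hEqm : ∀ j n k v, MeasurableSet (Eq j n k v) := by
    intro j n k v
    apply measurableSet_eq_fun
    · exact measurable_slice lam _ ((hDm j k v).image_of_measurable_injOn hΦ
        (hinj.mono (hDX j k v)))
    · refine measurable_slice lam _ (MeasurableSet.image_of_measurable_injOn ?_ hΦ
        (hinj.mono ?_))
      · rw [hsD]; exact hs n (hDm j k v)
      · rintro _ ⟨y, hy, rfl⟩
        exact hX2s n y (hDX j k v hy)
  have hEqae : ∀ j n k v, ∀ᵐ w ∂η, w ∈ Eq j n k v := by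
    intro j n k v
    exact slice_ae_eq ν η lam Φ hΦ hprod X2 hX2 hX2ν hinj (s n) (hs n) (hinv n) (hν n)
      (fun x => hzs n x) (hX2s n) (Dset j k v) (hDm j k v) (hDX j k v)
  let G : ℕ → Set (ℕ → Bool) := fun m =>
    (⋂ j, ⋂ n, ⋂ k, ⋂ v, Eq j n k v) ∩ ⋂ j : ℕ, {w | m ≤ j → B j w < (2⁻¹ : ENNReal) ^ j}
  have hGm : ∀ m, MeasurableSet (G m) := by
    intro m
    refine (MeasurableSet.iInter fun j => MeasurableSet.iInter fun n => MeasurableSet.iInter
      fun k => MeasurableSet.iInter fun v => hEqm j n k v).inter (MeasurableSet.iInter fun j => ?_)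
    by_cases h : m ≤ j
    · simp only [h, true_imp_iff]
      exact measurableSet_lt (hBm j) measurable_const
    · simp [h]
  have hGmono : Monotone G := by
    intro m m' h w hw
    refine ⟨hw.1, mem_iInter.2 fun j hj => ?_⟩
    exact (mem_iInter.1 hw.2 j) (h.trans hj)
  have hGae : η (⋃ m, G m)ᶜ = 0 := by
    have h1 : ∀ᵐ w ∂η, w ∈ ⋃ m, G m := by
      have h2 : ∀ᵐ w ∂η, ∀ j n k v, w ∈ Eq j n k v := by
        rw [ae_all_iff]; intro j
        rw [ae_all_iff]; intro n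
        rw [ae_all_iff]; intro k
        rw [ae_all_iff]; intro v
        exact hEqae j n k v
      filter_upwards [h2, hBae] with w hw1 hw2
      obtain ⟨m, hm⟩ := eventually_atTop.1 hw2
      refine mem_iUnion.2 ⟨m, ?_, ?_⟩
      · simp only [mem_iInter]; exact hw1
      · simp only [mem_iInter, mem_ofPred_eq]
        intro j hj
        exact not_le.1 (hm j hj)
    exact h1
  obtain ⟨ζ, P, hζ1, hP1, hP2, hP3, hP4, hP5⟩ := exists_pieces η G hGm hGmono hGae
  have hPPG : ∀ i, ∃ m, PP ζ P i ⊆ G m := by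
    intro i
    cases i with
    | zero =>
      obtain ⟨m, hm⟩ := hζ1
      exact ⟨m, by rintro _ rfl; exact hm⟩
    | succ i => exact hP4 i
  refine ⟨C, ζ, P, hCc, hCX, ?_, hP1, hP2, hP3, hP5, ?_, ?_⟩
  · have h1 : ∀ j : ℕ, ν (⋃ j, C j)ᶜ ≤ (4⁻¹ : ENNReal) ^ j := fun j =>
      (measure_mono (compl_subset_compl.2 (subset_iUnion C j))).trans (hCν' j)
    have h2 : Tendsto (fun k : ℕ => (4⁻¹ : ENNReal) ^ k) atTop (nhds 0) :=
      ENNReal.tendsto_pow_atTop_nhds_zero_of_lt_one (by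
        rw [ENNReal.inv_lt_one]; norm_num)
    exact le_antisymm (ge_of_tendsto' h2 h1) bot_le
  · intro i w hw j n k v
    obtain ⟨m, hm⟩ := hPPG i
    have := (hm hw).1
    simp only [mem_iInter] at this
    exact this j n k v
  · intro i ε hε
    obtain ⟨m, hm⟩ := hPPG i
    have h2 : Tendsto (fun k : ℕ => (2⁻¹ : ENNReal) ^ k) atTop (nhds 0) :=
      ENNReal.tendsto_pow_atTop_nhds_zero_of_lt_one (by simp)
    obtain ⟨j, hj1, hj2⟩ := ((h2.eventually (gt_mem_nhds hε)).and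
      (eventually_ge_atTop m)).exists
    refine ⟨j, fun w hw => ?_⟩
    have := (mem_iInter.1 (hm hw).2 j) hj2
    exact (le_of_lt this).trans hj1.le

end Pool.Agent.TH722.CR
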