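import Mathlib
import Pool.Agent.TH722.CR.PmpPart

set_option autoImplicit false

namespace Pool.Agent.TH722.CR

open Set MeasureTheory TopologicalSpace Filter

/-- the blocks, with the constant sequence as block number `0` -/
def EPs : ℕ → Set (ℕ → Bool)
  | 0 => {fun _ => true}
  | i + 1 => Block i

theorem exists_measurableEquiv {A B : Type} [MeasurableSpace A] [StandardBorelSpace A]
    [MeasurableSpace B] [StandardBorelSpace B] (f : A → B) (hf : Measurable f)
    (hb : Function.Bijective f) : ∃ h : A ≃ᵐ B, ∀ a, h a = f a := by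
  have he : MeasurableEmbedding f := hf.measurableEmbedding hb.1
  refine ⟨{ toEquiv := Equiv.ofBijective f hb, measurable_toFun := hf, measurable_invFun := ?_ },
    fun a => rfl⟩
  intro S hS
  have : (Equiv.ofBijective f hb).symm ⁻¹' S = f '' S := by
    ext b
    constructor
    · intro h
      exact ⟨_, h, (Equiv.ofBijective f hb).apply_symm_apply b⟩
    · rintro ⟨a, ha, rfl⟩
      have : (Equiv.ofBijective f hb).symm (f a) = a := (Equiv.ofBijective f hb).symm_apply_apply a
      rw [mem_preimage, this]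
      exact ha
  exact this ▸ he.measurableSet_image.2 hS

theorem pmp_part {X : Type} [MeasurableSpace X] [StandardBorelSpace X] (s : ℕ → X → X)
    (hs : ∀ n, Measurable (s n)) (hinv : ∀ n x, s n (s n x) = x) (E : X → X → Prop)
    (hE : Equivalence E) (hsE : ∀ x y, E x y ↔ ∃ n, s n x = y)
    (hinf : ∀ x, {y | E x y}.Infinite)
    (ν : Measure X) [IsProbabilityMeasure ν] (hν : ∀ n, ν.map (s n) = ν) : PartReal X E ν := by
  classical
  obtain ⟨N, X1, z, ω, hN, hX1, hX1ν, hX1E, hz, hω, hzE, hinj, hflip, hlam, hprod⟩ :=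
    dye_full s hs hinv E hE hsE hinf ν hν
  have hEs : ∀ n x, E x (s n x) := fun n x => (hsE _ _).2 ⟨n, rfl⟩
  have hzs : ∀ n x, z (s n x) = z x := fun n x => (hzE _ _ (hEs n x)).symm
  have _ : IsProbabilityMeasure (ν.map ω) := Measure.isProbabilityMeasure_map hω.aemeasurable
  have _ : IsProbabilityMeasure (ν.map z) := Measure.isProbabilityMeasure_map hz.aemeasurable
  have hmod : ∀ x ∈ X1, ∀ x' : (k : ℕ) → Fin (N k), (∃ k, ∀ i, k ≤ i → ω x i = x' i) →
      ∃ y ∈ X1, E x y ∧ ω y = x' := by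
    rintro x hx x' ⟨k, hk⟩
    exact dye_mod hE N X1 ω hflip k x hx x' hk
  let e0 : ∀ k, Fin (N k) := fun k => ⟨0, by have := hN k; omega⟩
  let D0 : Set (∀ k, Fin (N k)) := {x | ∃ k, ∀ i, k ≤ i → x i = e0 i}
  have hD0c : D0.Countable := af_class_countable N e0
  have hD0lam : (ν.map ω) D0 = 0 := by
    rw [← biUnion_of_singleton D0]
    exact (measure_biUnion_null_iff hD0c).2 fun x _ => lam_singleton N hN _ hlam x
  have hD0m : MeasurableSet D0 := hD0c.measurableSet
  let X2 : Set X := X1 \ ⋃ n, s n ⁻¹' (ω ⁻¹' D0)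
  have hX2 : MeasurableSet X2 := hX1.diff (MeasurableSet.iUnion fun n => hs n (hω hD0m))
  have hD0sat : ν (⋃ n, s n ⁻¹' (ω ⁻¹' D0)) = 0 := by
    rw [measure_iUnion_null_iff]
    intro n
    rw [← Measure.map_apply (hs n) (hω hD0m), hν n, ← Measure.map_apply hω hD0m]
    exact hD0lam
  have hX2ν : ν X2ᶜ = 0 := by
    have : X2ᶜ ⊆ X1ᶜ ∪ ⋃ n, s n ⁻¹' (ω ⁻¹' D0) := by
      intro x hx
      by_cases h1 : x ∈ X1
      · right
        by_contra h2
        exact hx ⟨h1, h2⟩
      · exact Or.inl h1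
    exact measure_mono_null this (measure_union_null hX1ν hD0sat)
  have hX2E : ∀ x y, E x y → x ∈ X2 → y ∈ X2 := by
    rintro x y hxy ⟨h1, h2⟩
    refine ⟨hX1E x y hxy h1, fun h => h2 ?_⟩
    obtain ⟨n, hn⟩ := mem_iUnion.1 h
    obtain ⟨m, hm⟩ := (hsE x (s n y)).1 (hE.trans hxy (hEs n y))
    exact mem_iUnion.2 ⟨m, by rw [mem_preimage, hm]; exact hn⟩
  have hX2D : ∀ x ∈ X2, ω x ∉ D0 := by
    rintro x ⟨-, h2⟩ h
    obtain ⟨n, hn⟩ := (hsE x x).1 (hE.refl x)
    exact h2 (mem_iUnion.2 ⟨n, by rw [mem_preimage, hn]; exact h⟩)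
  have hinj2 : InjOn (fun x => (z x, ω x)) X2 := by
    intro x hx y hy h
    simp only [Prod.mk.injEq] at h
    exact hinj x hx.1 y hy.1 h.1 h.2
  obtain ⟨t, hPt, hBt, hsc, hΦc⟩ := exists_top s hs (fun x => (z x, ω x)) (hz.prodMk hω)
  have hzc : Continuous z := continuous_fst.comp hΦc
  have hωc : Continuous ω := continuous_snd.comp hΦc
  obtain ⟨C, ζ, P, hCc, hCX, hCν, hPc, hζP, hPd, hPη, hEq, hB⟩ :=
    exists_good s hs hinv ν hν N z ω hz hω hzs X2 hX2 hX2ν (fun n x hx => hX2E _ _ (hEs n x) hx)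
      hinj2 hprod
  set lam : Measure (∀ k, Fin (N k)) := ν.map ω with hlamdef
  -- parameter space
  have hPPc : ∀ i, IsCompact (PP ζ P i) := by
    intro i
    cases i with
    | zero => exact isCompact_singleton
    | succ i => exact hPc i
  let Q0 : Set (ℕ → Bool) := {ζ} ∪ ⋃ i, P i
  have hQ0 : ∀ w, w ∈ Q0 ↔ ∃ i, w ∈ PP ζ P i := by
    intro w
    constructor
    · rintro (h | h)
      · exact ⟨0, h⟩
      · obtain ⟨i, hi⟩ := mem_iUnion.1 h
        exact ⟨i + 1, hi⟩
    · rintro ⟨i, hi⟩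
      cases i with
      | zero => exact Or.inl hi
      | succ i => exact Or.inr (mem_iUnion.2 ⟨i, hi⟩)
  have hQ0m : MeasurableSet Q0 :=
    (measurableSet_singleton ζ).union (MeasurableSet.iUnion fun i => (hPc i).measurableSet)
  have hencinj : InjOn (Enc P) Q0 := enc_injOn P hPd ζ hζP
  let encS : (ℕ → Bool) → Zst P := fun w => ⟨Enc P w, enc_mem P hPd w⟩
  have hencSm : Measurable encS := (enc_measurable P fun i => (hPc i).measurableSet).subtype_mk
  have hZcl : IsClosed (Zst P) := isClosed_zst P fun i => (hPc i).isClosed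
  have _ : CompactSpace (Zst P) := isCompact_iff_compactSpace.1 hZcl.isCompact
  let ψ : X → (Zst P) × (∀ k, Fin (N k)) := fun x => (encS (z x), ω x)
  have hψm : Measurable ψ := (hencSm.comp hz).prodMk hω
  let Y : Set X := (⋃ j, ⋃ n, s n ⁻¹' C j) ∩ z ⁻¹' Q0
  have hYm : MeasurableSet Y := (MeasurableSet.iUnion fun j => MeasurableSet.iUnion fun n =>
    hs n (hCc j).measurableSet).inter (hz hQ0m)
  have hmem : ∀ x, x ∈ Y ↔ (∃ j n, s n x ∈ C j) ∧ z x ∈ Q0 := by
    intro x; simp [Y]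
  have hYE : ∀ x y, E x y → x ∈ Y → y ∈ Y := by
    intro x y hxy hx
    obtain ⟨⟨j, n, h⟩, hx2⟩ := (hmem x).1 hx
    obtain ⟨m, hm⟩ := (hsE y (s n x)).1 (hE.trans (hE.symm hxy) (hEs n x))
    exact (hmem y).2 ⟨⟨j, m, by rw [hm]; exact h⟩, hzE x y hxy ▸ hx2⟩
  have hYX2 : Y ⊆ X2 := by
    intro x hx
    obtain ⟨⟨j, n, h⟩, -⟩ := (hmem x).1 hx
    exact hX2E _ _ (hE.symm (hEs n x)) (hCX j h)
  have hYν : ν Yᶜ = 0 := by
    have h1 : Yᶜ ⊆ (⋃ j, C j)ᶜ ∪ z ⁻¹' Q0ᶜ := by
      intro x hx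
      by_cases h2 : z x ∈ Q0
      · left
        intro h3
        obtain ⟨j, hj⟩ := mem_iUnion.1 h3
        obtain ⟨n, hn⟩ := (hsE x x).1 (hE.refl x)
        exact hx ((hmem x).2 ⟨⟨j, n, by rw [hn]; exact hj⟩, h2⟩)
      · exact Or.inr h2
    refine measure_mono_null h1 (measure_union_null hCν ?_)
    rw [← Measure.map_apply hz hQ0m.compl]
    exact hPη
  have hψi : InjOn ψ Y := by
    intro x hx y hy h
    simp only [ψ, encS, Prod.mk.injEq, Subtype.mk.injEq] at h
    exact hinj2 (hYX2 hx) (hYX2 hy) (Prod.ext (hencinj hx.2 hy.2 h.1) h.2)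
  have hψ' : ∀ x ∈ Y, ∀ y ∈ Y, AF N (ψ x) (ψ y) → E x y := by
    rintro x hx y hy ⟨h1, h2⟩
    have h3 : z x = z y := hencinj hx.2 hy.2 (congrArg Subtype.val h1)
    obtain ⟨y', hy'1, hy'2, hy'3⟩ := hmod x (hYX2 hx).1 (ω y) h2
    have : y' = y := hinj y' hy'1 y (hYX2 hy).1 (by rw [← h3]; exact (hzE _ _ hy'2).symm) hy'3
    exact this ▸ hy'2
  -- continuity of ψ over a piece
  have hψc : ∀ i, ContinuousOn ψ (z ⁻¹' PP ζ P i) := by
    intro i
    refine ContinuousOn.prodMk ?_ hωc.continuousOn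
    rw [Topology.IsInducing.subtypeVal.continuousOn_iff]
    cases i with
    | zero =>
      refine (continuousOn_const (c := Enc P ζ)).congr ?_
      intro x hx
      have hx' : z x = ζ := hx
      simp only [encS, Function.comp, hx']
    | succ i =>
      refine ((pre_continuous i).comp hzc).continuousOn.congr ?_
      intro x hx
      have hx' : z x ∈ P i := hx
      exact enc_of_mem P hPd i (z x) hx'
  -- compact pieces
  let CC : ℕ → Set X := fun a => C (Nat.unpair a).1 ∩ z ⁻¹' PP ζ P (Nat.unpair a).2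
  have hCCc : ∀ a, IsCompact (CC a) := fun a =>
    (hCc _).inter_right ((hPPc _).isClosed.preimage hzc)
  have hCCY : ∀ a, CC a ⊆ Y := by
    intro a x hx
    obtain ⟨n, hn⟩ := (hsE x x).1 (hE.refl x)
    exact (hmem x).2 ⟨⟨_, n, by rw [hn]; exact hx.1⟩, (hQ0 _).2 ⟨_, hx.2⟩⟩
  have hYCC : ∀ x ∈ Y, ∃ a n, s n x ∈ CC a := by
    intro x hx
    obtain ⟨⟨j, n, h⟩, hx2⟩ := (hmem x).1 hx
    obtain ⟨i, hi⟩ := (hQ0 _).1 hx2
    refine ⟨Nat.pair j i, n, ?_⟩
    simp only [CC, Nat.unpair_pair]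
    refine ⟨h, ?_⟩
    rw [mem_preimage, hzs]
    exact hi
  -- slices
  have hslice : ∀ (i : ℕ) (w : ℕ → Bool), w ∈ PP ζ P i → ∀ (D : Set X) (x : ∀ k, Fin (N k)),
      (encS w, x) ∈ ψ '' (D ∩ z ⁻¹' PP ζ P i) ↔ (w, x) ∈ (fun x => (z x, ω x)) '' D := by
    intro i w hw D x
    constructor
    · rintro ⟨c, ⟨hc, hc'⟩, h⟩
      simp only [ψ, Prod.mk.injEq] at h
      refine ⟨c, hc, ?_⟩
      simp only [Prod.mk.injEq]
      exact ⟨hencinj ((hQ0 _).2 ⟨i, hc'⟩) ((hQ0 _).2 ⟨i, hw⟩) (congrArg Subtype.val h.1), h.2⟩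
    · rintro ⟨c, hc, h⟩
      simp only [Prod.mk.injEq] at h
      refine ⟨c, ⟨hc, ?_⟩, ?_⟩
      · rw [mem_preimage, h.1]; exact hw
      · simp only [ψ, h.1, h.2]
  have hsurj : ∀ q : Zst P, ∃ w ∈ Q0, encS w = q := by
    intro q
    obtain ⟨w, hw, hw'⟩ := enc_surj P hPd ζ hζP q q.2
    exact ⟨w, hw, Subtype.ext hw'⟩
  -- the homeomorphisms
  have hT : ∀ a n, ∃ T : (Zst P × ∀ k, Fin (N k)) ≃ₜ (Zst P × ∀ k, Fin (N k)),
      (∀ c ∈ CC a, T (ψ c) = ψ (s n c)) ∧ ∀ y, y ∉ ψ '' CC a → AF N y (T y) := by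
    intro a n
    set j := (Nat.unpair a).1 with hj
    set i := (Nat.unpair a).2 with hi
    have hCCa : CC a = C j ∩ z ⁻¹' PP ζ P i := rfl
    have hψcC : ContinuousOn ψ (CC a) := (hψc i).mono inter_subset_right
    have hgC : ContinuousOn (fun x => ψ (s n x)) (CC a) := by
      apply (hψc i).comp (hsc n).continuousOn
      intro x hx
      rw [mem_preimage, hzs]
      exact hx.2
    have hgi : InjOn (fun x => ψ (s n x)) (CC a) := by
      intro x hx y hy h
      have := hψi (hYE _ _ (hEs n x) (hCCY a hx)) (hYE _ _ (hEs n y) (hCCY a hy)) h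
      rw [← hinv n x, this, hinv]
    obtain ⟨θ, h1, h2, h3, h4⟩ := exists_theta (CC a) (hCCc a) ψ (fun x => ψ (s n x))
      hψcC hgC (hψi.mono (hCCY a)) hgi
    have hA : IsClosed (ψ '' CC a) := ((hCCc a).image_of_continuousOn hψcC).isClosed
    have hBc : IsClosed ((fun x => ψ (s n x)) '' CC a) :=
      ((hCCc a).image_of_continuousOn hgC).isClosed
    have hnd : ∀ (g : X → X), (∀ x ∈ CC a, g x ∈ X2) → ∀ q : Zst P,
        interior {x | (q, x) ∈ (fun x => ψ (g x)) '' CC a} = ∅ := by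
      intro g hg q
      by_contra hne
      obtain ⟨x, hx, hx'⟩ := af_class_dense N e0 _ isOpen_interior
        (nonempty_iff_ne_empty.2 hne)
      obtain ⟨c, hc, hc'⟩ := interior_subset hx
      simp only [ψ, Prod.mk.injEq] at hc'
      exact hX2D _ (hg c hc) (hc'.2 ▸ hx')
    obtain ⟨T, hT1, hT2⟩ := af_ext N lam hlam (ψ '' CC a) ((fun x => ψ (s n x)) '' CC a) hA hBc
      θ h2 h3 h4 (by
        rintro _ ⟨c, hc, rfl⟩
        rw [h1 c hc]
        simp only [ψ, hzs]) (hnd id fun x hx => hYX2 (hCCY a hx))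
      (hnd (s n) fun x hx => hYX2 (hYE _ _ (hEs n x) (hCCY a hx))) (by
        intro q k u
        obtain ⟨w, hw, rfl⟩ := hsurj q
        by_cases hwi : w ∈ PP ζ P i
        · have e1 := hEq i w hwi j n k (fun i => u i)
          have e2 : {x : ∀ k, Fin (N k) | (encS w, x) ∈ ψ '' CC a ∧ ∀ i, i < k → x i = u i} =
              {x | (w, x) ∈ (fun x => (z x, ω x)) '' (C j ∩ {c | ∀ i : Fin k, ω c i = u i})} := by
            ext x
            simp only [mem_ofPred_eq]
            rw [hCCa, hslice i w hwi (C j) x]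
            constructor
            · rintro ⟨⟨c, hc, h⟩, hx⟩
              refine ⟨c, ⟨hc, fun i => ?_⟩, h⟩
              simp only [Prod.mk.injEq] at h
              rw [h.2]; exact hx i i.2
            · rintro ⟨c, ⟨hc, hc'⟩, h⟩
              refine ⟨⟨c, hc, h⟩, fun i hi => ?_⟩
              simp only [Prod.mk.injEq] at h
              rw [← h.2]; exact hc' ⟨i, hi⟩
          have e3 : {y : ∀ k, Fin (N k) | ∃ x, (encS w, x) ∈ ψ '' CC a ∧ (∀ i, i < k → x i = u i) ∧
              θ (encS w, x) = (encS w, y)} =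
              {x | (w, x) ∈ (fun x => (z x, ω x)) ''
                (s n '' (C j ∩ {c | ∀ i : Fin k, ω c i = u i}))} := by
            ext y
            constructor
            · rintro ⟨x, ⟨c, hc, hcx⟩, hx, hxy⟩
              rw [← hcx, h1 c hc] at hxy
              simp only [ψ, Prod.mk.injEq] at hxy hcx
              refine ⟨s n c, ⟨c, ⟨hc.1, fun i => ?_⟩, rfl⟩, ?_⟩
              · rw [hcx.2]; exact hx i i.2
              · simp only [Prod.mk.injEq]
                refine ⟨?_, hxy.2⟩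
                rw [hzs]
                exact hencinj ((hQ0 _).2 ⟨i, hc.2⟩) hw (congrArg Subtype.val hcx.1)
            · rintro ⟨_, ⟨c, ⟨hc, hc'⟩, rfl⟩, h⟩
              simp only [Prod.mk.injEq, hzs] at h
              have hcCC : c ∈ CC a := ⟨hc, by rw [mem_preimage, h.1]; exact hwi⟩
              have hψc' : ψ c = (encS w, ω c) := by simp only [ψ, h.1]
              refine ⟨ω c, ⟨c, hcCC, hψc'⟩, fun i hi => hc' ⟨i, hi⟩, ?_⟩
              rw [← hψc', h1 c hcCC]
              simp only [ψ, hzs, h.1, h.2]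
          rw [e2, e3]
          exact e1
        · have e2 : {x : ∀ k, Fin (N k) | (encS w, x) ∈ ψ '' CC a ∧ ∀ i, i < k → x i = u i} =
              ∅ := by
            ext x
            simp only [mem_ofPred_eq, mem_empty_iff_false, iff_false]
            rintro ⟨⟨c, hc, h⟩, -⟩
            simp only [ψ, Prod.mk.injEq] at h
            have := hencinj ((hQ0 _).2 ⟨i, hc.2⟩) hw (congrArg Subtype.val h.1)
            exact hwi (this ▸ hc.2)
          have e3 : {y : ∀ k, Fin (N k) | ∃ x, (encS w, x) ∈ ψ '' CC a ∧ (∀ i, i < k → x i = u i) ∧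
              θ (encS w, x) = (encS w, y)} = ∅ := by
            ext y
            simp only [mem_ofPred_eq, mem_empty_iff_false, iff_false]
            rintro ⟨x, ⟨c, hc, h⟩, -⟩
            simp only [ψ, Prod.mk.injEq] at h
            have := hencinj ((hQ0 _).2 ⟨i, hc.2⟩) hw (congrArg Subtype.val h.1)
            exact hwi (this ▸ hc.2)
          rw [e2, e3])
    refine ⟨T, ?_, hT2⟩
    intro c hc
    rw [hT1 _ ⟨c, hc, rfl⟩, h1 c hc]
  choose T hT1 hT2 using hT
  obtain ⟨V, hV⟩ := af_gen (Z := Zst P) N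
  have hZsb : StandardBorelSpace (Zst P) := hZcl.measurableSet.standardBorel
  let 𝒴 : Set (Zst P × ∀ k, Fin (N k)) := {p | ∃ x ∈ Y, AF N p (ψ x)}
  have h𝒴eq : 𝒴 = ψ '' Y := by
    ext p
    constructor
    · rintro ⟨x, hx, h1, h2⟩
      obtain ⟨k, hk⟩ := h2
      obtain ⟨y, hy1, hy2, hy3⟩ := hmod x (hYX2 hx).1 p.2 ⟨k, fun i hi => (hk i hi).symm⟩
      refine ⟨y, hYE _ _ hy2 hx, ?_⟩
      simp only [ψ]
      rw [hy3, ← hzE _ _ hy2]
      exact Prod.ext h1.symm rfl
    · rintro ⟨x, hx, rfl⟩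
      exact ⟨x, hx, (af_equiv N).refl _⟩
  have h𝒴m : MeasurableSet 𝒴 := by
    rw [h𝒴eq]
    exact hYm.image_of_measurable_injOn hψm hψi
  have hYsb : StandardBorelSpace Y := hYm.standardBorel
  have h𝒴sb : StandardBorelSpace 𝒴 := h𝒴m.standardBorel
  have h𝒴inv : ∀ p q, AF N p q → p ∉ 𝒴 → q ∉ 𝒴 := by
    rintro p q hpq hp ⟨x, hx, h⟩
    exact hp ⟨x, hx, (af_equiv N).trans hpq h⟩
  obtain ⟨h1, hh1⟩ := exists_measurableEquiv (A := Y) (B := 𝒴)
    (fun x => ⟨ψ x, x, x.2, (af_equiv N).refl _⟩)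
    ((hψm.comp measurable_subtype_coe).subtype_mk) (by
      constructor
      · intro x y h
        exact Subtype.ext (hψi x.2 y.2 (congrArg Subtype.val h))
      · rintro ⟨p, hp⟩
        have hp' : p ∈ ψ '' Y := h𝒴eq ▸ hp
        obtain ⟨x, hx, rfl⟩ := hp'
        exact ⟨⟨x, hx⟩, rfl⟩)
  have hh1' : ∀ x : Y, (h1 x : Zst P × ∀ k, Fin (N k)) = ψ x := fun x => by rw [hh1]
  have htame2 : ∃ st : (𝒴ᶜ : Set (Zst P × ∀ k, Fin (N k))) → ℕ →
      (𝒴ᶜ : Set (Zst P × ∀ k, Fin (N k))), (∀ n, Measurable fun w => st w n) ∧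
      (∀ (w : (𝒴ᶜ : Set (Zst P × ∀ k, Fin (N k)))) n, AF N w.1 (st w n).1) ∧
      ∀ w w' n n', st w n = st w' n' → w = w' ∧ n = n' := by
    have hlaminv := fun S hS f hf hfi hfE => lam_inv N lam hlam S hS f hf hfi hfE
    have hcmp := fun P' Q' hP' hQ' h => af_cmp (Z := Zst P) N lam hlam P' Q' hP' hQ' h
    let EP : ℕ → Set (ℕ → Bool) := EPs
    have hEPex : ∀ q : ℕ → Bool, ∃ i, q ∈ EP i := by
      intro q
      rcases mem_block_or q with h | ⟨i, hi⟩
      · exact ⟨0, h⟩
      · exact ⟨i + 1, hi⟩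
    have hEPm : ∀ i, MeasurableSet (EP i) := by
      intro i
      cases i with
      | zero => exact measurableSet_singleton _
      | succ i => exact (isClopen_block i).isOpen.measurableSet
    let S : ℕ → Set (Zst P × ∀ k, Fin (N k)) := fun i => {p | p ∉ 𝒴 ∧ (p.1 : ℕ → Bool) ∈ EP i}
    have hEPPP : ∀ i (q : Zst P), (q : ℕ → Bool) ∈ EP i → ∃ w ∈ PP ζ P i, encS w = q := by
      intro i q hq
      obtain ⟨w, hw, rfl⟩ := hsurj q
      refine ⟨w, ?_, rfl⟩
      obtain ⟨i', hi'⟩ := (hQ0 w).1 hw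
      have : i = i' := by
        cases i with
        | zero =>
          cases i' with
          | zero => rfl
          | succ i' =>
            exfalso
            have h1 : Enc P w = pre i' w := enc_of_mem P hPd i' w hi'
            have h2 : Enc P w = fun _ => true := hq
            exact one_notMem_block i' (h2 ▸ h1 ▸ pre_mem_block i' w)
        | succ i =>
          cases i' with
          | zero =>
            exfalso
            have h1 : w = ζ := hi'
            have h2 : Enc P w = fun _ => true := by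
              rw [h1]; exact enc_of_notMem P ζ (by push Not; exact hζP)
            have h3 : Enc P w ∈ Block i := hq
            exact one_notMem_block i (h2 ▸ h3)
          | succ i' =>
            have h1 : Enc P w = pre i' w := enc_of_mem P hPd i' w hi'
            have h3 : Enc P w ∈ Block i := hq
            rw [h1] at h3
            rw [block_disj h3 (pre_mem_block i' w)]
      exact this ▸ hi'
    have hst : ∀ i, ∃ st : (Zst P × ∀ k, Fin (N k)) → ℕ → (Zst P × ∀ k, Fin (N k)),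
        (∀ n, Measurable fun p => st p n) ∧
        (∀ p ∈ S i, ∀ n, p.1 = (st p n).1 ∧ ∃ k, ∀ i, k ≤ i → p.2 i = (st p n).2 i) ∧
        ∀ p ∈ S i, ∀ q ∈ S i, ∀ m n, st p m = st q n → p = q ∧ m = n := by
      intro i
      apply af_stable N hN lam hlam hlaminv hcmp (S i)
      intro ε hε
      obtain ⟨j, hj⟩ := hB i ε hε
      have hAcl : IsClosed (ψ '' (C j ∩ z ⁻¹' PP ζ P i)) := by
        have := ((hCCc (Nat.pair j i)).image_of_continuousOn
          ((hψc i).mono (by simp only [CC, Nat.unpair_pair]; exact inter_subset_right))).isClosed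
        simpa only [CC, Nat.unpair_pair] using this
      have hA𝒴 : ψ '' (C j ∩ z ⁻¹' PP ζ P i) ⊆ 𝒴 := by
        rw [h𝒴eq]
        apply image_mono
        have := hCCY (Nat.pair j i)
        simpa only [CC, Nat.unpair_pair] using this
      have hfib : ∀ w ∈ PP ζ P i, lam {x | (encS w, x) ∉ ψ '' (C j ∩ z ⁻¹' PP ζ P i)} ≤ ε := by
        intro w hw
        have : {x | (encS w, x) ∉ ψ '' (C j ∩ z ⁻¹' PP ζ P i)} =
            {x | (w, x) ∉ (fun x => (z x, ω x)) '' C j} := by
          ext x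
          simp only [mem_ofPred_eq]
          rw [hslice i w hw (C j) x]
        rw [this]
        exact hj w hw
      cases i with
      | zero =>
        let q0 : Zst P := encS ζ
        refine ⟨(fun p => (q0, p.2)) ⁻¹' (ψ '' (C j ∩ z ⁻¹' PP ζ P 0))ᶜ,
          hAcl.isOpen_compl.preimage (by fun_prop), ?_, ?_⟩
        · rintro ⟨q, x⟩ ⟨hp1, hp2⟩
          obtain ⟨w, hw, hwq⟩ := hEPPP 0 q hp2
          have hwζ : w = ζ := hw
          subst hwζ
          intro h
          apply hp1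
          apply hA𝒴
          rw [← hwq]
          exact h
        · intro q
          exact hfib ζ rfl
      | succ i =>
        refine ⟨(fun p => (p.1 : ℕ → Bool)) ⁻¹' Block i ∩ (ψ '' (C j ∩ z ⁻¹' PP ζ P (i + 1)))ᶜ,
          ((isClopen_block i).isOpen.preimage
            (continuous_subtype_val.comp continuous_fst)).inter hAcl.isOpen_compl, ?_, ?_⟩
        · rintro ⟨q, x⟩ ⟨hp1, hp2⟩
          exact ⟨hp2, fun h => hp1 (hA𝒴 h)⟩
        · intro q
          by_cases hq : (q : ℕ → Bool) ∈ Block i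
          · obtain ⟨w, hw, hwq⟩ := hEPPP (i + 1) q hq
            subst hwq
            refine (measure_mono ?_).trans (hfib w hw)
            rintro x ⟨-, hx⟩
            exact hx
          · have : {x : ∀ k, Fin (N k) | (q, x) ∈ (fun p : Zst P × ∀ k, Fin (N k) =>
                (p.1 : ℕ → Bool)) ⁻¹' Block i ∩ (ψ '' (C j ∩ z ⁻¹' PP ζ P (i + 1)))ᶜ} = ∅ := by
              ext x
              simp only [mem_ofPred_eq, mem_empty_iff_false, iff_false]
              rintro ⟨h, -⟩
              exact hq h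
            rw [this, measure_empty]
            exact bot_le
    choose st hst1 hst2 hst3 using hst
    let EQ : (𝒴ᶜ : Set (Zst P × ∀ k, Fin (N k))) → ℕ → Prop := fun p i =>
      (p.1.1 : ℕ → Bool) ∈ EP i
    have hex2 : ∀ p : (𝒴ᶜ : Set (Zst P × ∀ k, Fin (N k))), ∃ i, EQ p i :=
      fun p => hEPex p.1.1
    let idx : (𝒴ᶜ : Set (Zst P × ∀ k, Fin (N k))) → ℕ := fun p => Nat.find (hex2 p)
    have hidx : Measurable idx := by
      have hm : ∀ i, MeasurableSet {p : (𝒴ᶜ : Set (Zst P × ∀ k, Fin (N k))) |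
          (p.1.1 : ℕ → Bool) ∈ EP i} := fun i =>
        (measurable_subtype_coe.comp (measurable_fst.comp measurable_subtype_coe)) (hEPm i)
      exact measurable_find hex2 hm
    have hidxS : ∀ p : (𝒴ᶜ : Set (Zst P × ∀ k, Fin (N k))), (p : Zst P × ∀ k, Fin (N k)) ∈ S (idx p) :=
      fun p => ⟨p.2, Nat.find_spec (hex2 p)⟩
    have hAFst : ∀ (p : (𝒴ᶜ : Set (Zst P × ∀ k, Fin (N k)))) n, AF N p.1 (st (idx p) p n) :=
      fun p n => hst2 _ _ (hidxS p) n
    refine ⟨fun p n => ⟨st (idx p) p n, h𝒴inv _ _ (hAFst p n) p.2⟩, ?_, ?_, ?_⟩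
    · intro n
      apply Measurable.subtype_mk
      exact meas_index (fun i (p : (𝒴ᶜ : Set (Zst P × ∀ k, Fin (N k)))) => st i p n)
        (fun i => (hst1 i n).comp measurable_subtype_coe) idx hidx
    · intro p n
      exact hAFst p n
    · intro p q m n h
      have h' : st (idx p) p m = st (idx q) q n := congrArg Subtype.val h
      have h2 : (p : Zst P × ∀ k, Fin (N k)).1 = (q : Zst P × ∀ k, Fin (N k)).1 := by
        rw [(hAFst p m).1, (hAFst q n).1, h']
      have h3 : idx p = idx q := by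
        have h6 : ∀ i, (p.1.1 : ℕ → Bool) ∈ EP i ↔ (q.1.1 : ℕ → Bool) ∈ EP i :=
          fun i => by rw [h2]
        apply le_antisymm
        · exact Nat.find_min' (hex2 p) ((h6 _).2 (Nat.find_spec (hex2 q)))
        · exact Nat.find_min' (hex2 q) ((h6 _).1 (Nat.find_spec (hex2 p)))
      have h4 := hidxS p
      rw [h3] at h' h4
      obtain ⟨h5, h6⟩ := hst3 _ _ h4 _ (hidxS q) _ _ h'
      exact ⟨Subtype.ext h5, h6⟩
  refine partReal_of_core (af_equiv N) V hV hE s hsE ψ Y hYE hψ' CC hYCC hCCY T hT1 hT2 ν hYm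
    hYν h𝒴m h1 (fun x x' => ?_) ⟨?_, htame2⟩
  · rw [hh1', hh1']
    exact (Rel.iff_image (af_equiv N) hE ψ Y hψ' x.2 x'.2).symm
  · -- reduction to eventual equality
    refine ⟨fun p n => Nat.pair (p.1.2 n) (if (p.1.1 : ℕ → Bool) (Nat.unpair n).1 then 1 else 0),
      ?_, ?_, ?_⟩
    · rw [measurable_pi_iff]
      intro n
      have m1 : Measurable (fun p : (𝒴ᶜ : Set (Zst P × ∀ k, Fin (N k))) => p.1.2 n) :=
        (measurable_pi_apply n).comp (measurable_snd.comp measurable_subtype_coe)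
      have m2 : Measurable (fun p : (𝒴ᶜ : Set (Zst P × ∀ k, Fin (N k))) =>
          (p.1.1 : ℕ → Bool) (Nat.unpair n).1) :=
        (measurable_pi_apply _).comp
          (measurable_subtype_coe.comp (measurable_fst.comp measurable_subtype_coe))
      have m3 : Measurable (fun p : Fin (N n) × Bool => Nat.pair p.1 (if p.2 then 1 else 0)) :=
        measurable_of_countable _
      exact m3.comp (m1.prodMk m2)
    · rintro ⟨⟨q, x⟩, hp⟩ ⟨⟨q', x'⟩, hp'⟩ h
      have h2 : ∀ n, x n = x' n ∧ (q : ℕ → Bool) (Nat.unpair n).1 = (q' : ℕ → Bool) (Nat.unpair n).1 := by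
        intro n
        have := congrFun h n
        simp only [Nat.pair_eq_pair] at this
        refine ⟨Fin.ext this.1, ?_⟩
        have h3 := this.2
        revert h3
        cases (q : ℕ → Bool) (Nat.unpair n).1 <;> cases (q' : ℕ → Bool) (Nat.unpair n).1 <;> simp
      have hx : x = x' := funext fun n => (h2 n).1
      have hq : q = q' := by
        apply Subtype.ext
        ext i
        have := (h2 (Nat.pair i 0)).2
        simpa using this
      subst hx hq
      rfl
    · rintro ⟨⟨q, x⟩, hp⟩ ⟨⟨q', x'⟩, hp'⟩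
      constructor
      · rintro ⟨h1, k, hk⟩
        refine ⟨k, fun n hn => ?_⟩
        change Nat.pair (x n) (if (q : ℕ → Bool) (Nat.unpair n).1 = true then 1 else 0) =
          Nat.pair (x' n) (if (q' : ℕ → Bool) (Nat.unpair n).1 = true then 1 else 0)
        have h1' : q = q' := h1
        have h2' : x n = x' n := hk n hn
        rw [h1', h2']
      · rintro ⟨k, hk⟩
        have h2 : ∀ n, k ≤ n → x n = x' n ∧
            (q : ℕ → Bool) (Nat.unpair n).1 = (q' : ℕ → Bool) (Nat.unpair n).1 := by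
          intro n hn
          have := hk n hn
          simp only [Nat.pair_eq_pair] at this
          refine ⟨Fin.ext this.1, ?_⟩
          have h3 := this.2
          revert h3
          cases (q : ℕ → Bool) (Nat.unpair n).1 <;> cases (q' : ℕ → Bool) (Nat.unpair n).1 <;> simp
        refine ⟨?_, k, fun n hn => (h2 n hn).1⟩
        apply Subtype.ext
        ext i
        have := (h2 (Nat.pair i k) (Nat.right_le_pair i k)).2
        simpa using this
end Pool.Agent.TH722.CR
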