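import Mathlib
import Pool.Agent.TH722.CR.PmpMain
import Pool.Agent.H139R3.FM

set_option autoImplicit false

namespace Pool.Agent.TH722.CR

open Set MeasureTheory TopologicalSpace Filter

theorem PartReal.mono_ac {X : Type} [MeasurableSpace X] {E : X → X → Prop} {μ ν : Measure X}
    (h : PartReal X E ν) (hac : μ ≪ ν) : PartReal X E μ := by
  obtain ⟨Y, W, i1, i2, T, h1, h2, h3, h4, h5⟩ := h
  exact ⟨Y, W, i1, i2, T, h1, hac h2, h3, h4, h5⟩

instance sb_sum (A B : Type) [MeasurableSpace A] [StandardBorelSpace A] [MeasurableSpace B]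
    [StandardBorelSpace B] : StandardBorelSpace (A ⊕ B) := by
  let := upgradeStandardBorel A
  let := upgradeStandardBorel B
  have := borelSpace_sum A B
  have h1 : PolishSpace (A ⊕ B) := { }
  infer_instance

theorem exists_sub_equiv {X : Type} [MeasurableSpace X] [StandardBorelSpace X] (S : Set X)
    (hS : MeasurableSet S) (Y : Set S) (hY : MeasurableSet Y) :
    MeasurableSet (Subtype.val '' Y : Set X) :=
  (MeasurableEmbedding.subtype_coe hS).measurableSet_image.2 hY

/-- gluing the two parts -/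
theorem PartReal.union {X : Type} [MeasurableSpace X] [StandardBorelSpace X] {E : X → X → Prop}
    (μ : Measure X) (S : Set X) (hS : MeasurableSet S)
    (hSE : ∀ x y, E x y → (x ∈ S ↔ y ∈ S))
    (h : PartReal S (fun a b : S => E a b) (μ.comap Subtype.val))
    (h' : PartReal (Sᶜ : Set X) (fun a b : (Sᶜ : Set X) => E a b) (μ.comap Subtype.val)) :
    PartReal X E μ := by
  classical
  obtain ⟨Y, W, i1, i2, T, h1, h2, h3, h4, h5⟩ := h
  obtain ⟨Y', W', i1', i2', T', h1', h2', h3', h4', h5'⟩ := h'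
  let Z : Set X := Subtype.val '' Y ∪ Subtype.val '' Y'
  have hYm : MeasurableSet (Subtype.val '' Y : Set X) := exists_sub_equiv S hS Y h1
  have hYm' : MeasurableSet (Subtype.val '' Y' : Set X) := exists_sub_equiv Sᶜ hS.compl Y' h1'
  have hZm : MeasurableSet Z := hYm.union hYm'
  have hSsb := hS.standardBorel
  have hSsb' := hS.compl.standardBorel
  have hYsb := h1.standardBorel
  have hYsb' := h1'.standardBorel
  have hZsb := hZm.standardBorel
  refine ⟨Z, W ⊕ W', inferInstance, inferInstance, Sum.LiftRel T T', hZm, ?_, ?_, h4.sum h4', ?_⟩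
  · have e1 : Zᶜ ⊆ (Subtype.val '' (Yᶜ) ∪ Subtype.val '' (Y'ᶜ) : Set X) := by
      intro x hx
      by_cases hxS : x ∈ S
      · left
        refine ⟨⟨x, hxS⟩, fun h => hx (Or.inl ⟨⟨x, hxS⟩, h, rfl⟩), rfl⟩
      · right
        refine ⟨⟨x, hxS⟩, fun h => hx (Or.inr ⟨⟨x, hxS⟩, h, rfl⟩), rfl⟩
    refine measure_mono_null e1 (measure_union_null ?_ ?_)
    · rw [← (MeasurableEmbedding.subtype_coe hS).comap_apply]; exact h2
    · rw [← (MeasurableEmbedding.subtype_coe hS.compl).comap_apply]; exact h2'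
  · rintro x y hxy (⟨a, ha, rfl⟩ | ⟨a, ha, rfl⟩)
    · have hy : y ∈ S := (hSE _ _ hxy).1 a.2
      exact Or.inl ⟨⟨y, hy⟩, h3 a ⟨y, hy⟩ hxy ha, rfl⟩
    · have hy : y ∉ S := fun h => a.2 ((hSE _ _ hxy).2 h)
      exact Or.inr ⟨⟨y, hy⟩, h3' a ⟨y, hy⟩ hxy ha, rfl⟩
  · let f : (Y ⊕ W) ⊕ (Y' ⊕ W') → Z ⊕ (W ⊕ W') :=
      Sum.elim (Sum.elim (fun y => Sum.inl ⟨y.1.1, Or.inl ⟨y.1, y.2, rfl⟩⟩)
        (fun w => Sum.inr (Sum.inl w)))
        (Sum.elim (fun y => Sum.inl ⟨y.1.1, Or.inr ⟨y.1, y.2, rfl⟩⟩)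
        (fun w => Sum.inr (Sum.inr w)))
    have hfm : Measurable f := by
      refine Measurable.sumElim (Measurable.sumElim ?_ ?_) (Measurable.sumElim ?_ ?_)
      · exact measurable_inl.comp ((measurable_subtype_coe.comp measurable_subtype_coe).subtype_mk)
      · exact measurable_inr.comp measurable_inl
      · exact measurable_inl.comp ((measurable_subtype_coe.comp measurable_subtype_coe).subtype_mk)
      · exact measurable_inr.comp measurable_inr
    have hfb : Function.Bijective f := by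
      constructor
      · rintro ((a | a) | (a | a)) ((b | b) | (b | b)) hab <;>
          simp only [f, Sum.elim_inl, Sum.elim_inr, Sum.inl.injEq, Sum.inr.injEq,
            reduceCtorEq] at hab
        · have h' : a.1.1 = b.1.1 := congrArg (Subtype.val (p := fun x => x ∈ Z)) hab
          rw [Subtype.ext (Subtype.ext h')]
        · have h' : a.1.1 = b.1.1 := congrArg (Subtype.val (p := fun x => x ∈ Z)) hab
          exact absurd (h' ▸ a.1.2) b.1.2
        · rw [hab]
        · have h' : a.1.1 = b.1.1 := congrArg (Subtype.val (p := fun x => x ∈ Z)) hab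
          exact absurd (h' ▸ b.1.2) a.1.2
        · have h' : a.1.1 = b.1.1 := congrArg (Subtype.val (p := fun x => x ∈ Z)) hab
          rw [Subtype.ext (Subtype.ext h')]
        · rw [hab]
      · rintro (⟨x, hx⟩ | (w | w))
        · rcases hx with ⟨a, ha, rfl⟩ | ⟨a, ha, rfl⟩
          · exact ⟨Sum.inl (Sum.inl ⟨a, ha⟩), rfl⟩
          · exact ⟨Sum.inr (Sum.inl ⟨a, ha⟩), rfl⟩
        · exact ⟨Sum.inl (Sum.inr w), rfl⟩
        · exact ⟨Sum.inr (Sum.inr w), rfl⟩
    obtain ⟨g, hg⟩ := exists_measurableEquiv f hfm hfb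
    refine CAct.congr g.symm (F := Sum.LiftRel (Sum.LiftRel (fun a b : Y => E a b) T)
      (Sum.LiftRel (fun a b : Y' => E a b) T')) ?_ (h5.sum h5')
    intro a b
    obtain ⟨a, rfl⟩ := g.surjective a
    obtain ⟨b, rfl⟩ := g.surjective b
    rw [g.symm_apply_apply, g.symm_apply_apply, hg, hg]
    have hcross : ∀ (a : Y) (b : Y'), ¬ E a.1.1 b.1.1 := fun a b h => b.1.2 ((hSE _ _ h).1 a.1.2)
    have hcross' : ∀ (a : Y) (b : Y'), ¬ E b.1.1 a.1.1 := fun a b h => b.1.2 ((hSE _ _ h).2 a.1.2)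
    rcases a with (a | a) | (a | a) <;> rcases b with (b | b) | (b | b) <;>
      simp [f, hcross, hcross']

theorem PartReal.of_null {X : Type} [MeasurableSpace X] [StandardBorelSpace X]
    {E : X → X → Prop} (μ : Measure X) (S : Set X) (hS : MeasurableSet S) (hSμ : μ Sᶜ = 0)
    (hSE : ∀ x y, E x y → (x ∈ S ↔ y ∈ S))
    (h : PartReal S (fun a b : S => E a b) (μ.comap Subtype.val)) : PartReal X E μ := by
  classical
  obtain ⟨Y, W, i1, i2, T, h1, h2, h3, h4, h5⟩ := h
  have hYm : MeasurableSet (Subtype.val '' Y : Set X) := exists_sub_equiv S hS Y h1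
  have hSsb := hS.standardBorel
  have hYsb := h1.standardBorel
  have hZsb := hYm.standardBorel
  refine ⟨Subtype.val '' Y, W, inferInstance, inferInstance, T, hYm, ?_, ?_, h4, ?_⟩
  · have e1 : (Subtype.val '' Y : Set X)ᶜ ⊆ (Subtype.val '' (Yᶜ) : Set X) ∪ Sᶜ := by
      intro x hx
      by_cases hxS : x ∈ S
      · left
        exact ⟨⟨x, hxS⟩, fun h => hx ⟨⟨x, hxS⟩, h, rfl⟩, rfl⟩
      · exact Or.inr hxS
    refine measure_mono_null e1 (measure_union_null ?_ hSμ)
    rw [← (MeasurableEmbedding.subtype_coe hS).comap_apply]; exact h2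
  · rintro x y hxy ⟨a, ha, rfl⟩
    have hy : y ∈ S := (hSE _ _ hxy).1 a.2
    exact ⟨⟨y, hy⟩, h3 a ⟨y, hy⟩ hxy ha, rfl⟩
  · obtain ⟨g, hg⟩ := exists_measurableEquiv (A := Y) (B := (Subtype.val '' Y : Set X))
      (fun y => ⟨y.1.1, y.1, y.2, rfl⟩)
      ((measurable_subtype_coe.comp measurable_subtype_coe).subtype_mk) (by
        constructor
        · intro a b hab
          have h' : a.1.1 = b.1.1 :=
            congrArg (Subtype.val (p := fun x => x ∈ (Subtype.val '' Y : Set X))) hab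
          exact Subtype.ext (Subtype.ext h')
        · rintro ⟨x, a, ha, rfl⟩
          exact ⟨⟨a, ha⟩, rfl⟩)
    refine CAct.congr (MeasurableEquiv.sumCongr g (MeasurableEquiv.refl W)).symm
      (F := Sum.LiftRel (fun a b : Y => E a b) T) ?_ h5
    intro a b
    obtain ⟨a, rfl⟩ := (MeasurableEquiv.sumCongr g (MeasurableEquiv.refl W)).surjective a
    obtain ⟨b, rfl⟩ := (MeasurableEquiv.sumCongr g (MeasurableEquiv.refl W)).surjective b
    rw [MeasurableEquiv.symm_apply_apply, MeasurableEquiv.symm_apply_apply]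
    have e1 : ∀ a : Y, MeasurableEquiv.sumCongr g (MeasurableEquiv.refl W) (Sum.inl a) =
      Sum.inl (g a) := fun a => rfl
    have e2 : ∀ a : W, MeasurableEquiv.sumCongr g (MeasurableEquiv.refl W) (Sum.inr a) =
      Sum.inr a := fun a => rfl
    rcases a with a | a <;> rcases b with b | b <;> simp [e1, e2, hg]

/-- an aperiodic relation has an almost realization -/
theorem partReal {X : Type} [MeasurableSpace X] [StandardBorelSpace X] (s : ℕ → X → X)
    (hs : ∀ n, Measurable (s n)) (hinv : ∀ n x, s n (s n x) = x) (E : X → X → Prop)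
    (hE : Equivalence E) (hsE : ∀ x y, E x y ↔ ∃ n, s n x = y)
    (hinf : ∀ x, {y | E x y}.Infinite) (μ : Measure X) [IsProbabilityMeasure μ]
    (hqi : ∀ n V, MeasurableSet V → μ V = 0 → μ (s n ⁻¹' V) = 0) : PartReal X E μ := by
  classical
  obtain ⟨S, hS, hmax⟩ := exists_max_comp s hs E hE hsE μ
  obtain ⟨st, hst1, hst2, hst3⟩ := stable_of_comp s hs E hE hsE hinv S hS
  have hSm : MeasurableSet S := hS.1
  have hSE : ∀ x y, E x y → (x ∈ S ↔ y ∈ S) := fun x y h =>
    ⟨fun hx => hS.2.1 x y h hx, fun hy => hS.2.1 y x (hE.symm h) hy⟩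
  have hEs : ∀ n x, E x (s n x) := fun n x => (hsE _ _).2 ⟨n, rfl⟩
  -- restriction to an invariant set
  have hres : ∀ (R : Set X), (∀ x y, E x y → (x ∈ R ↔ y ∈ R)) →
      ∃ s' : ℕ → R → R, (∀ n (x : R), (s' n x : X) = s n x) ∧ (∀ n, Measurable (s' n)) ∧
        (∀ n x, s' n (s' n x) = x) ∧
        ∀ x y : R, E x y ↔ ∃ n, s' n x = y := by
    intro R hR
    refine ⟨fun n x => ⟨s n x, (hR _ _ (hEs n x)).1 x.2⟩, fun n x => rfl, ?_, ?_, ?_⟩
    · intro n
      exact ((hs n).comp measurable_subtype_coe).subtype_mk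
    · intro n x
      exact Subtype.ext (hinv n x)
    · intro x y
      rw [hsE]
      exact exists_congr fun n => ⟨fun h => Subtype.ext h, fun h => congrArg Subtype.val h⟩
  have hsubE : ∀ R : Set X, Equivalence (fun a b : R => E a b) := fun R =>
    ⟨fun a => hE.refl a, fun h => hE.symm h, fun h h' => hE.trans h h'⟩
  -- compressible part
  have hcomp : PartReal S (fun a b : S => E a b) (μ.comap Subtype.val) := by
    have := hSm.standardBorel
    obtain ⟨s', h1, h2, h3, h4⟩ := hres S hSE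
    have hfin : IsFiniteMeasure (μ.comap (Subtype.val : S → X)) := by
      constructor
      rw [(MeasurableEmbedding.subtype_coe hSm).comap_apply]
      exact measure_lt_top _ _
    refine comp_part s' h2 h3 (fun a b : S => E a b) (hsubE S) h4
      (fun x n => ⟨st x n, (hSE _ _ (hst2 x n)).1 x.2⟩) (fun n =>
        ((hst1 n).comp measurable_subtype_coe).subtype_mk) (fun x n => hst2 x n) ?_ _
    intro x y m n h
    obtain ⟨h5, h6⟩ := hst3 x x.2 y y.2 m n (congrArg Subtype.val h)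
    exact ⟨Subtype.ext h5, h6⟩
  by_cases hμ : μ Sᶜ = 0
  · exact PartReal.of_null μ S hSm hμ hSE hcomp
  · have hSE' : ∀ x y, E x y → (x ∈ Sᶜ ↔ y ∈ Sᶜ) := fun x y h => not_congr (hSE x y h)
    apply PartReal.union μ S hSm hSE hcomp
    have := hSm.compl.standardBorel
    obtain ⟨s', h1, h2, h3, h4⟩ := hres Sᶜ hSE'
    have hme : MeasurableEmbedding (Subtype.val : (Sᶜ : Set X) → X) :=
      MeasurableEmbedding.subtype_coe hSm.compl
    set m0 : Measure (Sᶜ : Set X) := μ.comap Subtype.val with hm0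
    have hm0a : ∀ V, m0 V = μ (Subtype.val '' V) := fun V => hme.comap_apply μ V
    have hm0u : m0 univ = μ Sᶜ := by rw [hm0a, image_univ, Subtype.range_val]
    let c : ENNReal := (μ Sᶜ)⁻¹
    have hc0 : c ≠ 0 := ENNReal.inv_ne_zero.2 (measure_ne_top _ _)
    have hcne : c ≠ ⊤ := ENNReal.inv_ne_top.2 hμ
    let m1 : Measure (Sᶜ : Set X) := c • m0
    have hm1p : IsProbabilityMeasure m1 := by
      constructor
      rw [Measure.smul_apply, smul_eq_mul, hm0u]
      exact ENNReal.inv_mul_cancel hμ (measure_ne_top _ _)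
    have hm10 : ∀ V, m1 V = 0 ↔ m0 V = 0 := by
      intro V
      rw [Measure.smul_apply, smul_eq_mul, mul_eq_zero]
      exact ⟨fun h => h.resolve_left hc0, Or.inr⟩
    have hqi' : ∀ n V, MeasurableSet V → m1 V = 0 → m1 (s' n ⁻¹' V) = 0 := by
      intro n V hV h
      rw [hm10, hm0a] at h ⊢
      have h5 := hqi n _ (hme.measurableSet_image.2 hV) h
      refine measure_mono_null ?_ h5
      rintro _ ⟨x, hx, rfl⟩
      exact ⟨s' n x, hx, h1 n x⟩
    have hfin' : ∀ f : (Sᶜ : Set X) → (Sᶜ : Set X), Measurable f → Function.Injective f →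
        (∀ x : (Sᶜ : Set X), E x (f x)) → m1 (range f)ᶜ = 0 := by
      intro f hf hfi hfE
      let F : X → X := fun x => if h : x ∈ Sᶜ then f ⟨x, h⟩ else x
      have hFm : Measurable F := by
        refine Measurable.dite (f := fun x : (Sᶜ : Set X) => (f x : X))
          (g := fun x : ((Sᶜ)ᶜ : Set X) => (x : X)) ?_ ?_ hSm.compl
        · exact measurable_subtype_coe.comp hf
        · exact measurable_subtype_coe
      have hF1 : ∀ x (h : x ∈ Sᶜ), F x = f ⟨x, h⟩ := fun x h => dif_pos h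
      have hF2 : ∀ x, x ∉ Sᶜ → F x = x := fun x h => dif_neg h
      have hFi : Function.Injective F := by
        intro x y h
        by_cases hx : x ∈ Sᶜ
        · by_cases hy : y ∈ Sᶜ
          · rw [hF1 x hx, hF1 y hy] at h
            exact congrArg Subtype.val (hfi (Subtype.ext h))
          · rw [hF1 x hx, hF2 y hy] at h
            exact absurd (h ▸ (f ⟨x, hx⟩).2) hy
        · by_cases hy : y ∈ Sᶜ
          · rw [hF2 x hx, hF1 y hy] at h
            exact absurd (h ▸ (f ⟨y, hy⟩).2) hx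
          · rw [hF2 x hx, hF2 y hy] at h
            exact h
      have hFE : ∀ x, E x (F x) := by
        intro x
        by_cases hx : x ∈ Sᶜ
        · rw [hF1 x hx]; exact hfE ⟨x, hx⟩
        · rw [hF2 x hx]; exact hE.refl x
      rw [hm10, hm0a]
      refine measure_mono_null ?_ (hmax F hFm hFi hFE)
      rintro _ ⟨x, hx, rfl⟩
      refine ⟨x.2, ?_⟩
      rintro ⟨y, hy⟩
      apply hx
      by_cases hy' : y ∈ Sᶜ
      · rw [hF1 y hy'] at hy
        exact ⟨⟨y, hy'⟩, Subtype.ext hy⟩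
      · rw [hF2 y hy'] at hy
        exact absurd (hy ▸ x.2) hy'
    have hinf' : ∀ x : (Sᶜ : Set X), {y : (Sᶜ : Set X) | E x y}.Infinite := by
      intro x hfin
      apply hinf x
      refine (hfin.image Subtype.val).subset ?_
      intro y hy
      exact ⟨⟨y, (hSE' _ _ hy).1 x.2⟩, hy, rfl⟩
    have hhalve := fun C hC => halve s' h2 h3 (fun a b : (Sᶜ : Set X) => E a b) (hsubE _) h4 hinf'
      m1 hqi' hfin' C hC
    have hgreedy := fun U V hU hV => greedy s' h2 h3 (fun a b : (Sᶜ : Set X) => E a b) (hsubE _) h4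
      U V hU hV
    obtain ⟨X', d, e1, e2, e3, e4, e5⟩ := hopf_dyadic s' h2 h3 (fun a b : (Sᶜ : Set X) => E a b)
      (hsubE _) h4 m1 hqi' hhalve
    obtain ⟨ν, hν1, hν2, hν3, hν4⟩ := hopf_measure s' h2 h3 (fun a b : (Sᶜ : Set X) => E a b)
      (hsubE _) h4 m1 hqi' hfin' hgreedy X' d e1 e2 e3 e4 e5
    have hp := pmp_part s' h2 h3 (fun a b : (Sᶜ : Set X) => E a b) (hsubE _) h4 hinf' ν hν2
    refine hp.mono_ac (Measure.AbsolutelyContinuous.trans ?_ hν4)
    refine Measure.AbsolutelyContinuous.mk fun V _ hV => (hm10 V).1 hV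

/-- the main theorem -/
theorem main_theorem {X : Type} [MeasurableSpace X] [StandardBorelSpace X] (E : X → X → Prop)
    (μ : Measure X) [IsProbabilityMeasure μ] (hE : Equivalence E)
    (hEm : MeasurableSet {p : X × X | E p.1 p.2}) (hcount : ∀ x : X, {y : X | E x y}.Countable)
    (hinf : ∀ x : X, {y : X | E x y}.Infinite)
    (hns : ∀ Y : Set X, MeasurableSet Y → (∀ x y : X, E x y → x ∈ Y → y ∈ Y) → μ Y = 1 →
      ¬ ∃ f : X → ℝ, Measurable f ∧ ∀ x ∈ Y, ∀ y ∈ Y, (E x y ↔ f x = f y)) :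
    ∃ Y : Set X, MeasurableSet Y ∧ (∀ x y : X, E x y → x ∈ Y → y ∈ Y) ∧ μ Y = 1 ∧
      CAct Y (fun a b : Y => E a b) := by
  classical
  obtain ⟨s, hs, hinv, hsE⟩ := Pool.Agent.H139R3.FM.feldman_moore E hE hEm hcount
  obtain ⟨μ', hμ'1, hμ'2, hμ'3⟩ := exists_qi s hs E hE hsE μ
  obtain ⟨Y, W, i1, i2, T, h1, h2, h3, h4, h5⟩ := partReal s hs hinv E hE hsE hinf μ' hμ'3
  have hμY : μ Y = 1 := (prob_compl_eq_zero_iff h1).1 (hμ'2 h2)
  have hYsb := h1.standardBorel
  have hEs : ∀ n x, E x (s n x) := fun n x => (hsE _ _).2 ⟨n, rfl⟩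
  refine ⟨Y, h1, h3, hμY, ?_⟩
  let s' : ℕ → Y → Y := fun n x => ⟨s n x, h3 _ _ (hEs n x) x.2⟩
  have hs'm : ∀ n, Measurable (s' n) := fun n =>
    ((hs n).comp measurable_subtype_coe).subtype_mk
  have hs'i : ∀ n x, s' n (s' n x) = x := fun n x => Subtype.ext (hinv n x)
  have hs'E : ∀ x y : Y, E x y ↔ ∃ n, s' n x = y := by
    intro x y
    rw [hsE]
    exact exists_congr fun n => ⟨fun h => Subtype.ext h, fun h => congrArg Subtype.val h⟩
  have hEY : Equivalence (fun a b : Y => E a b) :=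
    ⟨fun a => hE.refl a, fun h => hE.symm h, fun h h' => hE.trans h h'⟩
  obtain ⟨j, hj1, hj2, hj3⟩ := glimm_effros s' hs'm hs'i (fun a b : Y => E a b) hEY hs'E (by
    rintro ⟨f, hf, hfE⟩
    apply hns Y h1 h3 hμY
    refine ⟨fun x => if h : x ∈ Y then f ⟨x, h⟩ else 0, ?_, ?_⟩
    · exact Measurable.dite (f := fun x : Y => f x) (g := fun x : (Yᶜ : Set X) => (0 : ℝ)) hf
        measurable_const h1
    · intro x hx y hy
      simp only [hx, hy, dif_pos]
      exact hfE ⟨x, hx⟩ ⟨y, hy⟩)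
  obtain ⟨⟨c, hc1, hc2, hc3⟩, st, hst1, hst2, hst3⟩ := h4
  obtain ⟨e, he⟩ := absorb s' hs'm hs'i (fun a b : Y => E a b) hEY hs'E j hj1 hj2 hj3 T c hc1 hc2
    hc3 st hst1 hst2 hst3
  refine CAct.congr e.symm (F := Sum.LiftRel (fun a b : Y => E a b) T) ?_ h5
  intro a b
  rw [he, e.apply_symm_apply, e.apply_symm_apply]

end Pool.Agent.TH722.CR
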